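import Pool.Agent.P.MP_158ebf_lc.ODefs

/-! Relativized proof systems and random oracles. -/

namespace Pool.Agent.P.MP_435dae_lc

open MeasureTheory Pool.Agent.P.MP_158ebf_lc

/-- The fair-coin measure on oracles. -/
noncomputable def coin : Measure (List Bool → Bool) :=
  Measure.infinitePi fun _ => (PMF.uniformOfFintype Bool).toMeasure

/-- `f` is a Cook-Reckhow proof system for `L` relative to `O`. -/
def ProofSystemIn (O : List Bool → Bool) (f : List Bool → List Bool) (L : List Bool → Bool) :
    Prop :=
  PolyTimeIn O f ∧ ∀ y, L y = true ↔ ∃ w, f w = y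

/-- `f` is a proof system for `L` relative to `O` whose proofs are at most exponentially longer
than those of any other such proof system. -/
def OptimalIn (O : List Bool → Bool) (f : List Bool → List Bool) (L : List Bool → Bool) : Prop :=
  ProofSystemIn O f L ∧ ∀ g, ProofSystemIn O g L →
    ∃ c : ℕ, ∀ w, ∃ v : List Bool, v.length ≤ 2 ^ (c * w.length + c) ∧ f v = g w

/-- `L` is many-one hard for `coNP` relative to `O`. -/
def CoNPHardIn (O : List Bool → Bool) (L : List Bool → Bool) : Prop :=
  ∀ B ∈ NPIn O, ∃ g : List Bool → List Bool, PolyTimeIn O g ∧ ∀ x, L (g x) = !B x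

end Pool.Agent.P.MP_435dae_lc
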