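import Mathlib
import Pool.Prelude.Def_H_3587d628

/-! Optimal proof systems relative to an oracle. -/

namespace Pool.Agent.P.MP_435dae_lc.Opt

open N487b59b3 N68a2faeb

/-- The answers of the oracle `O` to the first `j` adaptive queries on input `a`; each query is
computed from `a` and the earlier answers. -/
def oans {α : Type} (O : List Bool → Bool) (query : α × List Bool → List Bool) (a : α) :
    ℕ → List Bool
  | 0 => []
  | j + 1 => oans O query a j ++ [O (query (a, oans O query a j))]

/-- `f` is computable in polynomial time with oracle `O`: polynomially many adaptive queries, the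
next query and the output being computed in polynomial time from the input and the answers. -/
def PolyTimeIn {α β : Type} [N487b59b3 α] [N487b59b3 β] (O : List Bool → Bool) (f : α → β) :
    Prop :=
  ∃ (query : α × List Bool → List Bool) (out : α × List Bool → β) (p : Polynomial ℕ),
    IsPolyTime query ∧ IsPolyTime out ∧
    ∀ a, f a = out (a, oans O query a (p.eval (bitEncode a).length))

/-- `NP` relative to `O`. -/
def NPIn (O : List Bool → Bool) : Set (List Bool → Bool) :=
  {L | ∃ (p : Polynomial ℕ) (R : List Bool × List Bool → Bool), PolyTimeIn O R ∧
    ∀ x, L x = true ↔ ∃ w : List Bool, w.length ≤ p.eval x.length ∧ R (x, w) = true}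

/-- `f` is a Cook-Reckhow proof system for `L` relative to `O`. -/
def ProofSystemIn (O : List Bool → Bool) (f : List Bool → List Bool) (L : List Bool → Bool) :
    Prop :=
  PolyTimeIn O f ∧ ∀ y, L y = true ↔ ∃ w, f w = y

/-- `f` is a proof system for `L` relative to `O` whose proofs are at most polynomially longer
than those of any other such proof system. -/
def PolyOptimalIn (O : List Bool → Bool) (f : List Bool → List Bool) (L : List Bool → Bool) :
    Prop :=
  ProofSystemIn O f L ∧ ∀ g, ProofSystemIn O g L →
    ∃ p : Polynomial ℕ, ∀ w, ∃ v : List Bool, v.length ≤ p.eval w.length ∧ f v = g w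

end Pool.Agent.P.MP_435dae_lc.Opt
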