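import Pool.Agent.P.MP_435dae_lc.Plant
import Pool.Agent.P.MP_158ebf_lc.PMain

/-! Oracle machines and the test language. -/

namespace Pool.Agent.P.MP_435dae_lc

open Function N487b59b3 N68a2faeb Pool.Agent.P.MP_158ebf_lc Pool.Agent.P.MP_158ebf_lc.POpt
  Pool.Agent.Lib.PolyTime

/-- Oracle machines: query map, output map, number of queries. -/
abbrev Mc := (Str × Str → Str) × (Str × Str → Str) × Polynomial ℕ

/-- The output of a machine. -/
noncomputable def run (M : Mc) (O : Ora) (a : Str) : Str :=
  M.2.1 (a, oans O M.1 a (M.2.2.eval (sz a)))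

/-- The queries of a machine. -/
noncomputable def qrs (M : Mc) (O : Ora) (a : Str) : List Str :=
  (List.range (M.2.2.eval (sz a))).map fun i => M.1 (a, oans O M.1 a i)

/-- Polynomial-time machines. -/
def Good (M : Mc) : Prop := IsPolyTime M.1 ∧ IsPolyTime M.2.1

section

variable {α : Type} {O O' : Ora} {q : α × Str → Str} {a : α}

theorem oans_agree {j : ℕ} (h : ∀ i < j, O' (q (a, oans O q a i)) = O (q (a, oans O q a i))) :
    oans O' q a j = oans O q a j := by
  induction j with
  | zero => rfl
  | succ j ih => rw [oans, oans, ih fun i hi => h i (by omega), h j (by omega)]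

theorem length_oans (j : ℕ) : (oans O q a j).length = j := by
  induction j with
  | zero => rfl
  | succ j ih => simp [oans, ih]

theorem take_oans {i j : ℕ} (h : i ≤ j) : (oans O q a j).take i = oans O q a i := by
  induction j, h using Nat.le_induction with
  | base => exact List.take_of_length_le (length_oans i).le
  | succ j h ih => rw [oans, List.take_append_of_le_length (by rwa [length_oans]), ih]

theorem oans_congr {β : Type} {q' : β × Str → Str} {b : β} (h : ∀ l, q (a, l) = q' (b, l))
    (j : ℕ) : oans O q a j = oans O q' b j := by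
  induction j with
  | zero => rfl
  | succ j ih => rw [oans, oans, ih, h]

theorem oans_iter (j : ℕ) : oans O q a j = (fun l => l ++ [O (q (a, l))])^[j] [] := by
  induction j with
  | zero => rfl
  | succ j ih => rw [oans, iterate_succ_apply', ih]

end

theorem run_agree {M : Mc} {O O' : Ora} {a : Str} (h : ∀ z ∈ qrs M O a, O' z = O z) :
    run M O' a = run M O a := by
  rw [run, run, oans_agree fun i hi => h _ (List.mem_map.2 ⟨i, List.mem_range.2 hi, rfl⟩)]

theorem qrs_bound {M : Mc} (hM : Good M) : ∃ p : Polynomial ℕ, ∀ O a,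
    (qrs M O a).length ≤ p.eval a.length ∧ ∀ z ∈ qrs M O a, z.length ≤ p.eval a.length := by
  obtain ⟨r, hr⟩ := (PT.of_isPolyTime hM.1).size
  refine ⟨(M.2.2 + r.comp (2 * Polynomial.X + 1 + 3 * M.2.2)).comp (3 * Polynomial.X),
    fun O a => ?_⟩
  simp only [Polynomial.eval_add, Polynomial.eval_comp, Polynomial.eval_mul,
    Polynomial.eval_ofNat, Polynomial.eval_X, Polynomial.eval_one, ← sz_str]
  refine ⟨by simp [qrs], fun z hz => ?_⟩
  obtain ⟨i, hi, rfl⟩ := List.mem_map.1 hz
  rw [List.mem_range] at hi
  have h4 : sz (M.1 (a, oans O M.1 a i)) ≤ r.eval (sz (a, oans O M.1 a i)) := hr _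
  have h5 := length_le_sz (M.1 (a, oans O M.1 a i))
  have h6 : sz (a, oans O M.1 a i) ≤ 2 * sz a + 1 + 3 * M.2.2.eval (sz a) := by
    rw [sz_pair, sz_str (oans _ _ _ _), length_oans]
    omega
  have h7 := eval_mono r h6
  omega

theorem exists_run {O : Ora} {f : Str → Str} (h : PolyTimeIn O f) :
    ∃ M, Good M ∧ f = run M O := by
  obtain ⟨q, o, p, hq, ho, h⟩ := h
  exact ⟨(q, o, p), ⟨hq, ho⟩, funext h⟩

theorem polyTimeIn_cond {M M' : Mc} (hM : Good M) (hM' : Good M') {s : Str → Bool}
    {a : Str → Str} (hs : PT s) (ha : PT a) (O : Ora) :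
    PolyTimeIn O fun w => bif s w then run M O (a w) else run M' O (a w) := by
  have h1 := PT.of_isPolyTime hM.1
  have h2 := PT.of_isPolyTime hM.2
  have h3 := PT.of_isPolyTime hM'.1
  have h4 := PT.of_isPolyTime hM'.2
  obtain ⟨r, hr⟩ := ha.size
  obtain ⟨q, o, p⟩ := M
  obtain ⟨q', o', p'⟩ := M'
  dsimp only at h1 h2 h3 h4
  refine ⟨fun x => bif s x.1 then q (a x.1, x.2) else q' (a x.1, x.2),
    fun x => bif s x.1 then o (a x.1, x.2.take (p.eval (sz (a x.1))))
      else o' (a x.1, x.2.take (p'.eval (sz (a x.1)))), (p + p').comp r,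
    PT.isPolyTime (by fun_prop), PT.isPolyTime (by fun_prop), fun w => ?_⟩
  have b1 : p.eval (sz (a w)) ≤ _ := eval_mono p (hr w)
  have b2 : p'.eval (sz (a w)) ≤ _ := eval_mono p' (hr w)
  have b3 : ((p + p').comp r).eval (bitEncode w).length =
      p.eval (r.eval (sz w)) + p'.eval (r.eval (sz w)) := by
    rw [Polynomial.eval_comp, Polynomial.eval_add]; rfl
  rw [b3]
  rcases Bool.eq_false_or_eq_true (s w) with h | h
  · simp only [h, cond_true, run]
    rw [take_oans (by omega)]
    exact congrArg (fun l => o (a w, l)) (oans_congr (fun l => by simp only [h, cond_true]) _)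
  · simp only [h, cond_false, run]
    rw [take_oans (by omega)]
    exact congrArg (fun l => o' (a w, l)) (oans_congr (fun l => by simp only [h, cond_false]) _)

section

variable {α : Type} [N487b59b3 α]

theorem pt_tab {t z : α → Str} (ht : PT t) (hz : PT z) : PT fun a => tab (t a) (z a) := by
  unfold tab ix; fun_prop

theorem pt_run {M : Mc} (hM : Good M) {t x : α → Str} (ht : PT t) (hx : PT x) :
    PT fun a => run M (tab (t a)) (x a) := by
  have h1 := PT.of_isPolyTime hM.1
  have h2 := PT.of_isPolyTime hM.2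
  have h3 : PT fun p : α × Str => tab (t p.1) (M.1 (x p.1, p.2)) :=
    pt_tab (by fun_prop) (h1.comp (by fun_prop))
  have h4 : PT fun a => (fun l => l ++ [tab (t a) (M.1 (x a, l))])^[M.2.2.eval (sz (x a))] [] :=
    PT.iterate_nat_growth (by fun_prop) (by fun_prop) (PT.const _)
      (PT.append (by fun_prop) (PT.cons h3 (PT.const _))) (fun _ => 3) (Small.const _)
      fun a l => by simp [sz_str]
  simp only [run, oans_iter]
  exact h2.comp (hx.pair h4)

end

/-! ### The test language -/

/-- The block of oracle strings attached to the candidate `y`. -/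
def bl (u r : ℕ) (y : Str) : List Str :=
  (List.range (u ^ 3 + 1 + min r u)).map fun j => y ++ List.replicate j true

/-- Some block lies in the oracle. -/
def wit (O : Ora) (u r : ℕ) : Bool := (allStr (u ^ 3 + 1)).any fun y => (bl u r y).all O

/-- The test language. -/
def test (O : Ora) (x : Str) : Bool := wit O (x.countP fun b => b) (x.countP fun b => !b)

theorem test_inst (O : Ora) (u r : ℕ) : test O (inst u r) = wit O u r := by
  simp [test, inst, List.countP_replicate, wit, bl]

theorem test_mem (O : Ora) : test O ∈ NPIn O := by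
  refine ⟨Polynomial.X ^ 3 + 1, fun a => decide (a.2.length = (a.1.countP fun b => b) ^ 3 + 1) &&
    (bl (a.1.countP fun b => b) (a.1.countP fun b => !b) a.2).all O,
    ⟨fun x => x.1.2 ++ List.replicate x.2.length true,
      fun x => decide (x.1.2.length = (x.1.1.countP fun b => b) ^ 3 + 1) &&
        (x.2.take ((x.1.1.countP fun b => b) ^ 3 + 1 +
          min (x.1.1.countP fun b => !b) (x.1.1.countP fun b => b))).all fun b => b,
      Polynomial.X ^ 3 + 1 + Polynomial.X, PT.isPolyTime (by fun_prop),
      PT.isPolyTime (by fun_prop), fun a => ?_⟩, fun x => ?_⟩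
  · have h1 : ∀ j, oans O (fun x : (Str × Str) × Str => x.1.2 ++ List.replicate x.2.length true)
        a j = (List.range j).map fun i => O (a.2 ++ List.replicate i true) := by
      intro j
      induction j with
      | zero => rfl
      | succ j ih => rw [oans, length_oans, ih, List.range_succ, List.map_append]; rfl
    have h2 : (a.1.countP fun b => b) ≤ (bitEncode a).length := by
      have h3 := List.countP_le_length (l := a.1) (p := fun b => b)
      have h4 : sz a = _ := sz_pair' a
      rw [sz_str] at h4
      unfold sz at h4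
      omega
    have h3 := Nat.pow_le_pow_left h2 3
    dsimp only
    rw [take_oans (by simp; omega)]
    refine congrArg _ ((congrArg (fun l : Str => l.all fun b => b) (h1 _)).trans ?_).symm
    simp [bl, List.all_map, Function.comp_def]
  · have h1 := Nat.pow_le_pow_left (List.countP_le_length (l := x) (p := fun b => b)) 3
    simp only [test, wit, List.any_eq_true, mem_allStr, Bool.and_eq_true, decide_eq_true_eq,
      Polynomial.eval_add, Polynomial.eval_pow, Polynomial.eval_X, Polynomial.eval_one]
    exact ⟨fun ⟨y, h2, h3⟩ => ⟨y, by omega, h2, h3⟩, fun ⟨y, _, h⟩ => ⟨y, h⟩⟩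

theorem mem_bl {u r : ℕ} {y z : Str} (hy : y.length = u ^ 3 + 1) (hz : z ∈ bl u r y) :
    z.take (u ^ 3 + 1) = y ∧ u < z.length ∧ z.length ≤ 2 * u ^ 3 + 2 + u := by
  obtain ⟨j, hj, rfl⟩ := List.mem_map.1 hz
  rw [List.mem_range] at hj
  have := Nat.le_self_pow (n := 3) (by norm_num) u
  refine ⟨by rw [← hy, List.take_left], ?_⟩
  simp only [List.length_append, List.length_replicate]
  omega

theorem nodup_bl (u r : ℕ) (y : Str) : (bl u r y).Nodup :=
  List.nodup_range.map fun i j h => by simpa using congrArg List.length h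

theorem wit_eq (u r : ℕ) : {O | wit O u r = true} =
    ⋃ y ∈ (allStr (u ^ 3 + 1)).toFinset, W (bl u r y) := by
  ext O
  simp [wit, W]

theorem card_cand (u : ℕ) : (allStr (u ^ 3 + 1)).toFinset.card = 2 ^ (u ^ 3 + 1) := by
  rw [List.toFinset_card_of_nodup (nodup_allStr _), length_allStr]

theorem any_congr_mem {β : Type} {l : List β} {p q : β → Bool} (h : ∀ x ∈ l, p x = q x) :
    l.any p = l.any q := by
  rw [Bool.eq_iff_iff, List.any_eq_true, List.any_eq_true]
  exact exists_congr fun x => and_congr_right fun hx => by rw [h x hx]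

theorem all_congr_mem {β : Type} {l : List β} {p q : β → Bool} (h : ∀ x ∈ l, p x = q x) :
    l.all p = l.all q := by
  rw [Bool.eq_iff_iff, List.all_eq_true, List.all_eq_true]
  exact forall₂_congr fun x hx => by rw [h x hx]

theorem loc_wit {u : ℕ} (hu : 2 ≤ u) (r : ℕ) : Loc (tw u) fun O => wit O u r := by
  intro O O' h
  have h1 : 2 * u ^ 3 + 2 + u ≤ tw u := by
    have a1 := Nat.le_self_pow (n := 3) (by norm_num) u
    have a2 : 2 ^ 3 ≤ u ^ 3 := Nat.pow_le_pow_left hu 3
    obtain ⟨m, hm⟩ := Nat.exists_eq_add_of_le a2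
    have a3 : m < 2 ^ m := Nat.lt_two_pow_self
    rw [tw, hm, pow_add]
    omega
  refine any_congr_mem fun y hy => all_congr_mem fun z hz => h z ?_
  exact (mem_bl (mem_allStr.1 hy) hz).2.2.trans h1

end Pool.Agent.P.MP_435dae_lc
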