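import Pool.Agent.P.MP_435dae_lc.Stage
import Pool.Agent.P.MP_158ebf_lc.OMach

/-! No optimal proof systems relative to a random oracle. -/

namespace Pool.Agent.P.MP_435dae_lc

open MeasureTheory Function Filter Topology N487b59b3 N68a2faeb Pool.Agent.P.MP_158ebf_lc
  Pool.Agent.P.MP_158ebf_lc.POpt Pool.Agent.Lib.PolyTime
open scoped ENNReal

variable {M M' : Mc} {n k : ℕ}

theorem sum_not_kept (fd : ℕ → ℕ → Bool) (n m : ℕ) :
    ∑ i ∈ Finset.range m, (if fd (sg fd n i).1 (sg fd n i).2 then 0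
      else (2⁻¹ : ℝ≥0∞) ^ (sg fd n i).2) + 2 * 2⁻¹ ^ (sg fd n m).2 ≤ 2 * 2⁻¹ ^ n := by
  induction m with
  | zero => simp [sg]
  | succ m ih =>
    refine le_trans (le_of_eq ?_) ih
    rw [Finset.sum_range_succ, sg_succ, stp]
    split_ifs
    · simp
    · rw [pow_succ, mul_comm (_ ^ _), ← mul_assoc,
        ENNReal.mul_inv_cancel (by norm_num) (by norm_num), one_mul, add_assoc, two_mul]

theorem sum_kept (h : Short M M' n) (m : ℕ) :
    ∑ i ∈ Finset.range m, (if keep M M' k n (sg (keep M M' k n) n i).1 (sg (keep M M' k n) n i).2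
      then (2⁻¹ : ℝ≥0∞) ^ (sg (keep M M' k n) n i).2 else 0) ≤ 2 ^ (k + 1) := by
  set s := sg (keep M M' k n) n with hs
  have hu : ∀ i, n ≤ (s i).1 ∧ (s i).2 ≤ (s i).1 := fun i => by
    have := sg_le (fd := keep M M' k n) (n := n) i
    rw [← hs] at this
    omega
  let D : ℕ → Set Ora := fun i =>
    {O | (prf M M' O (s i).1 (s i).2 && snd M M' O n (s i).1 && wit O (s i).1 (s i).2) = true}
  have d1 : ∀ i, MeasurableSet (D i) := fun i => Loc.meas (l := tw (s i).1) fun O O' hO =>
    congrArg₂ _ (loc_both h (hu i).1 _ O O' hO) (loc_wit (h.1.trans (hu i).1) _ O O' hO)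
  have d2 : ∀ i j, i < j → Disjoint (D i) (D j) := by
    intro i j hij
    refine Set.disjoint_left.2 fun O h1 h2 => ?_
    have a1 : tw (tw (tw (s i).1)) ≤ (s j).1 := sg_mono hij
    have a2 := lt_tw (s i).1
    have a3 := lt_tw3 (s i).1
    simp only [D, Set.mem_ofPred_eq, Bool.and_eq_true] at h1 h2
    have a4 := List.all_eq_true.1 (List.all_eq_true.1 h2.1.2 (s i).1
      (List.mem_range.2 (by omega))) (s i).2 (List.mem_range.2 (by have := hu i; omega))
    simp [h1.1.1, h1.2, (hu i).1, show tw (s i).1 ≤ (s j).1 by omega] at a4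
  have d3 : ∑ i ∈ Finset.range m, coin (D i) ≤ 1 := by
    rw [← measure_biUnion_finset (fun i _ j _ hij => ?_) fun i _ => d1 i]
    · exact prob_le_one
    · rcases lt_or_gt_of_ne hij with h | h
      · exact d2 i j h
      · exact (d2 j i h).symm
  refine le_trans (Finset.sum_le_sum (g := fun i => 2 ^ (k + 1) * coin (D i)) fun i _ => ?_) ?_
  · split_ifs with hk
    · refine le_trans (le_of_eq ?_) (mul_le_mul_right ((mul_le_mul_right
        ((keep_iff h (hu i).1).1 hk) _).trans (coin_unsound h (hu i).1 (hu i).2)) _)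
      rw [pow_succ (2⁻¹ : ℝ≥0∞), mul_assoc, ← pow_succ', mul_left_comm, ← mul_pow,
        ENNReal.mul_inv_cancel (by norm_num) (by norm_num), one_pow, mul_one]
    · exact zero_le
  · rw [← Finset.mul_sum]
    exact (mul_le_mul_right d3 _).trans (mul_one _).le

theorem tsum_ne_top (h : Short M M' n) :
    ∑' i, (2⁻¹ : ℝ≥0∞) ^ (sg (keep M M' k n) n i).2 ≠ ⊤ := by
  refine ne_top_of_le_ne_top (b := 2 ^ (k + 1) + 2 * 2⁻¹ ^ n) (by finiteness)
    (ENNReal.tsum_le_of_sum_range_le fun m => ?_)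
  refine le_trans (le_of_eq ?_) (add_le_add (sum_kept h m)
    (le_self_add.trans (sum_not_kept (keep M M' k n) n m)))
  rw [← Finset.sum_add_distrib]
  refine Finset.sum_congr rfl fun i _ => ?_
  split_ifs <;> simp

theorem exists_not_kept (h : Short M M' n) (m : ℕ) :
    ∃ j ≥ m, keep M M' k n (sg (keep M M' k n) n j).1 (sg (keep M M' k n) n j).2 = false := by
  by_contra hc
  simp only [not_exists, not_and, Bool.not_eq_false] at hc
  have h1 : ∀ j ≥ m, (sg (keep M M' k n) n j).2 = (sg (keep M M' k n) n m).2 := by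
    intro j hj
    induction j, hj using Nat.le_induction with
    | base => rfl
    | succ j hj ih => rw [sg_succ, stp, hc j hj, if_pos rfl, ih]
  have h2 := ENNReal.tendsto_atTop_zero_of_tsum_ne_top (tsum_ne_top (k := k) h)
  have h3 := tendsto_nhds_unique_of_eventuallyEq h2 tendsto_const_nhds
    (eventually_atTop.2 ⟨m, fun j hj => congrArg ((2⁻¹ : ℝ≥0∞) ^ ·) (h1 j hj)⟩)
  exact pow_ne_zero _ (by simp) h3.symm

/-- The oracles for which `M` is an optimal proof system and `M'` reduces the test language. -/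
def Bad (M M' : Mc) : Set Ora :=
  {O | ∃ L, OptimalIn O (run M O) L ∧ ∀ x, L (run M' O x) = !test O x}

theorem bad_eventually (hM : Good M) (hM' : Good M') {O : Ora} (hO : O ∈ Bad M M')
    (hw : ∀ᶠ i in atTop, wit O (sg (keep M M' k n) n i).1 (sg (keep M M' k n) n i).2 = false) :
    ∀ᶠ i in atTop, ev M M' O n (sg (keep M M' k n) n i).1 (sg (keep M M' k n) n i).2 = true := by
  obtain ⟨L, hf, hL⟩ := hO
  obtain ⟨m, hm⟩ := eventually_atTop.1 hw
  set s := sg (keep M M' k n) n with hs
  have hsnd : ∀ u, snd M M' O n u = true := fun u =>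
    List.all_eq_true.2 fun u' _ => List.all_eq_true.2 fun r' _ => by
      cases h1 : prf M M' O u' r'
      · simp
      · obtain ⟨v, -, hv⟩ := List.any_eq_true.1 h1
        have := (hf.1.2 _).2 ⟨v, beq_iff_eq.1 hv⟩
        rw [hL, test_inst, Bool.not_eq_true'] at this
        simp [this]
  let S : Str → ℕ × ℕ := fun w => gsg (keep M M' k n) w.tail.length n w.tail.length
  have s1 : PT S := (pt_gsg hM hM' k n).comp (g := fun w : Str => w.tail) (by fun_prop)
  have s2 : Small fun w => (S w).1 :=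
    Small.mono (n := fun w : Str => w.tail.length + n) (by fun_prop) fun w => gsg_le _ _
  have s3 := pt_inst s1.fst s1.snd s2
  let c : Str → Bool := fun w => w.headD false && decide ((s m).1 ≤ w.tail.length)
  have s4 : PT c := by fun_prop
  obtain ⟨C, hC⟩ := hf.2 _ ⟨polyTimeIn_cond hM' hM s4 (PT.cond s4 s3 (PT.tail PT.id)) O,
    fun y => ⟨fun hy => by
      obtain ⟨w, hw⟩ := (hf.1.2 y).1 hy
      exact ⟨false :: w, hw⟩, by
      rintro ⟨w, rfl⟩
      rcases Bool.eq_false_or_eq_true (c w) with h | h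
      · obtain ⟨j, hj, e⟩ := gsg_late (of_decide_eq_true (Bool.and_eq_true_iff.1 h).2)
        simp only [h, cond_true, S, e]
        rw [hL, test_inst, hm j hj]
        rfl
      · simp only [h, cond_false]
        exact (hf.1.2 _).2 ⟨_, rfl⟩⟩⟩
  refine eventually_atTop.2 ⟨m + 3 * C + 1, fun i hi => ?_⟩
  have a1 : n + i ≤ (s i).1 := (sg_le i).2
  have a2 : (s m).1 ≤ (s i).1 := ((lt_tw _).trans (lt_tw3 _)).le.trans (sg_mono (by omega))
  obtain ⟨v, hv, hv'⟩ := hC (true :: List.replicate (s i).1 true)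
  have a3 : c (true :: List.replicate (s i).1 true) = true := by simp [c, a2]
  simp only [a3, cond_true] at hv'
  simp only [S, List.tail_cons, List.length_replicate] at hv'
  have a6 : gsg (keep M M' k n) (s i).1 n (s i).1 = s i := gsg_self i
  rw [a6] at hv'
  have a5 : prf M M' O (s i).1 (s i).2 = true := by
    refine List.any_eq_true.2
      ⟨v, mem_advs.2 (hv.trans (Nat.pow_le_pow_right (by norm_num) ?_)), beq_iff_eq.2 hv'⟩
    rw [List.length_cons, List.length_replicate]
    have a4 : 3 * C + 1 ≤ (s i).1 := by omega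
    nlinarith [Nat.mul_le_mul_left (s i).1 a4, Nat.mul_le_mul_left C (show 1 ≤ (s i).1 by omega)]
  rw [ev, hsnd, hm i (by omega), a5]
  rfl

theorem coin_bad (hM : Good M) (hM' : Good M') : coin (Bad M M') = 0 := by
  obtain ⟨n, h⟩ := exists_short hM hM'
  have key : ∀ k : ℕ, coin (Bad M M') ≤ 2⁻¹ ^ k := by
    intro k
    set s := sg (keep M M' k n) n with hs
    have hu : ∀ i, n ≤ (s i).1 ∧ (s i).2 ≤ (s i).1 := fun i => by
      have := sg_le (fd := keep M M' k n) (n := n) i
      rw [← hs] at this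
      omega
    have h1 := ae_eventually_notMem (μ := coin) (s := fun i => {O | wit O (s i).1 (s i).2 = true})
      (ne_top_of_le_ne_top (tsum_ne_top h) (ENNReal.tsum_le_tsum fun i => coin_wit (hu i).2))
    have h2 : Bad M M' ≤ᵐ[coin] ⋃ m, ⋂ i ≥ m, {O | ev M M' O n (s i).1 (s i).2 = true} := by
      filter_upwards [h1] with O hO hb
      obtain ⟨m, hm⟩ := eventually_atTop.1
        (bad_eventually hM hM' hb (hO.mono fun i hi => Bool.eq_false_iff.2 hi))
      exact Set.mem_iUnion.2 ⟨m, Set.mem_iInter₂.2 hm⟩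
    refine (measure_mono_ae h2).trans ?_
    rw [Monotone.measure_iUnion fun a b hab =>
      Set.biInter_subset_biInter_left fun i (hi : b ≤ i) => hab.trans hi]
    refine iSup_le fun m => ?_
    obtain ⟨j, hj, e⟩ := exists_not_kept (k := k) h m
    refine (measure_mono (Set.biInter_subset_of_mem hj)).trans (not_le.1 fun h' => ?_).le
    rw [(keep_iff h (hu j).1).2 h'] at e
    exact absurd e (by simp)
  exact le_antisymm (ge_of_tendsto' (ENNReal.tendsto_pow_atTop_nhds_zero_of_lt_one (by norm_num))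
    key) zero_le

theorem ae_no_optimal : ∀ᵐ O ∂coin, ∀ L f, CoNPHardIn O L → ¬OptimalIn O f L := by
  have h0 := OMach_countable_poly
  have h1 := OMach_countable (Str × Str) Str
  have h2 : Countable {M : Mc // Good M} := Function.Injective.countable
    (f := fun M : {M : Mc // Good M} => ((⟨M.1.1, M.2.1⟩ : {f : Str × Str → Str // IsPolyTime f}),
      (⟨M.1.2.1, M.2.2⟩ : {f : Str × Str → Str // IsPolyTime f}), M.1.2.2)) fun a b h => by
    simp only [Prod.mk.injEq, Subtype.mk.injEq] at h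
    exact Subtype.ext (Prod.ext h.1 (Prod.ext h.2.1 h.2.2))
  have h3 : ∀ᵐ O ∂coin, ∀ M M' : {M : Mc // Good M}, O ∉ Bad M.1 M'.1 :=
    ae_all_iff.2 fun M => ae_all_iff.2 fun M' => measure_eq_zero_iff_ae_notMem.1 (coin_bad M.2 M'.2)
  filter_upwards [h3] with O hO L f hL hf
  obtain ⟨g, hg, hg'⟩ := hL _ (test_mem O)
  obtain ⟨M, hM, rfl⟩ := exists_run hf.1.1
  obtain ⟨M', hM', rfl⟩ := exists_run hg
  exact hO ⟨M, hM⟩ ⟨M', hM'⟩ ⟨L, hf, hg'⟩

end Pool.Agent.P.MP_435dae_lc
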