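import Pool.Agent.P.MP_435dae_lc.OptRel

/-! The forcing induction. -/

namespace Pool.Agent.P.MP_435dae_lc.Opt

open Function N487b59b3 N68a2faeb Pool.Agent.Lib.PolyTime

variable (T : ℕ → ℕ) (Js : ℕ → List Str)

/-- The parameters of height `h`. -/
def ent (h : ℕ) : Str := tup [tup (Js h), List.replicate (T h) true]

/-- The parameter list of a string of height `h`. -/
def Pis : ℕ → List Str
  | 0 => [ent T Js 0]
  | h + 1 => ent T Js (h + 1) :: Pis h

/-- The room needed below height `h`. -/
def room : ℕ → ℕ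
  | 0 => 0
  | h + 1 => room h + T (h + 1) + 1

theorem length_Pis (h : ℕ) : (Pis T Js h).length = h + 1 := by
  induction h with
  | zero => rfl
  | succ h ih => simp [Pis, ih]

theorem headD_Pis (h : ℕ) : (Pis T Js h).headD [] = ent T Js h := by cases h <;> rfl

/-- Strings of height `h` inside the window of scales from `k₀` to `K`. -/
def Good (k₀ K h : ℕ) (z : Str) : Prop :=
  PP z = Pis T Js h ∧ k₀ ≤ kk z.length ∧ kk z.length + room T h ≤ K

variable {T Js} {k₀ K : ℕ}

theorem Good.JJ_eq {h : ℕ} {z : Str} (hz : Good T Js k₀ K h z) : JJ z = Js h := by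
  rw [JJ, hz.1, headD_Pis, ent, fld_tup]
  exact blocks_tup _

theorem Good.tp_le {h : ℕ} {z : Str} (hz : Good T Js k₀ K h z) : tp z ≤ T h := by
  rw [tp, hz.1, headD_Pis, ent, fld_tup]
  simp

theorem Good.tp_eq {h : ℕ} {z : Str} (hz : Good T Js k₀ K h z) (hT : T h ≤ lg k₀) :
    tp z = T h := by
  have : lg k₀ ≤ lg (kk z.length) := Nat.log_mono_right hz.2.1
  rw [tp, hz.1, headD_Pis, ent, fld_tup]
  simp only [List.getD_cons_succ, List.getD_cons_zero, List.length_replicate]
  omega

theorem Good.child {h : ℕ} {z x : Str} (hx : Good T Js k₀ K (h + 1) x) (hz : Child z x) :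
    Good T Js k₀ K h z := by
  have h1 := hx.tp_le
  obtain ⟨a1, a2, a3⟩ := hx
  obtain ⟨-, b1, b2, b3⟩ := hz
  rw [room] at a3
  exact ⟨by rw [b1, a1]; rfl, by omega, by omega⟩

theorem Good.below {x : Str} : ∀ {d h : ℕ} {y : Str}, Good T Js k₀ K (h + d) x → Below x d y →
    Good T Js k₀ K h y
  | 0, _, _, hx, hy => (show _ = x from hy) ▸ hx
  | d + 1, h, _, hx, hy =>
    (Good.below (d := d) (h := h + 1) (by rwa [Nat.add_right_comm]) hy.2).child hy.1

theorem Good.below' {x y : Str} {d : ℕ} (hx : Good T Js k₀ K d x) (hy : Below x d y) :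
    Good T Js k₀ K 0 y ∧ kk y.length ≤ kk x.length + room T d := by
  have h1 : Good T Js k₀ (kk x.length + room T d) (0 + d) x := by
    rw [Nat.zero_add]; exact ⟨hx.1, hx.2.1, le_rfl⟩
  exact ⟨Good.below (by rwa [Nat.zero_add]) hy, (h1.below hy).2.2⟩

/-- The canonical child. -/
def mk (P : List Str) (x : Str) (l : ℕ) (a : List Str) : Str :=
  tup [tup P, x, List.replicate l true, tup a, List.replicate (ex (kk x.length + l + 1)) true]

theorem aa_mk (P : List Str) (x : Str) (l : ℕ) (a : List Str) : aa (mk P x l a) = a := by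
  rw [aa, mk, fld_tup]; exact blocks_tup _

theorem lam_mk (P : List Str) (x : Str) (l : ℕ) (a : List Str) : lam (mk P x l a) = l := by
  simp [lam, mk, fld_tup]

theorem child_mk {h l r : ℕ} {x : Str} {a : List Str} (hx : Good T Js k₀ K (h + 1) x)
    (hl : l ≤ tp x) (ha : Row r (ex (kk x.length + l)) a) (hk : 2 ≤ k₀) (hr : r ≤ ex k₀)
    (hP : (tup (Pis T Js h)).length ≤ ex k₀) : Child (mk (Pis T Js h) x l a) x := by
  refine ⟨by simp [par, mk, fld_tup], ?_, by rwa [lam_mk], ?_⟩
  · rw [hx.1, PP, mk, fld_tup]; exact blocks_tup _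
  have a0 := hx.2.1
  have a1 := length_tup_le ha.2
  have a2 : ex k₀ ≤ ex (kk x.length + l) := ex_mono (by omega)
  have a3 := ex_succ (kk x.length + l)
  have a4 := lt_ex (kk x.length + l)
  have a5 : r * (2 * ex (kk x.length + l) + 1) ≤
      ex (kk x.length + l) * (3 * ex (kk x.length + l)) := Nat.mul_le_mul (by omega) (by omega)
  have a6 := lt_ex_kk x.length
  have a7 : ex (kk x.length + 1) ≤ ex (kk x.length + l + 1) := ex_mono (by omega)
  have a8 : ex (kk x.length + l) ≤ ex (kk x.length + l + 1) := ex_mono (by omega)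
  have a9 : 16 ≤ ex (kk x.length + l + 1) := ex_mono (a := 2) (by omega)
  have a10 : (tup a).length ≤ 3 * ex (kk x.length + l + 1) := by rw [ha.1] at a1; nlinarith
  rw [lam_mk]
  refine kk_eq ?_ ?_
  · simp only [mk, length_tup_cons, List.length_replicate]; omega
  · rw [ex_succ (kk x.length + l + 1)]
    simp only [mk, length_tup_cons, List.length_replicate, length_tup_nil]
    nlinarith

variable {O : Str → Bool} {g : ℕ → ℕ}

section

variable (hk : 2 ≤ k₀) (hT : ∀ h ≤ T 0 + 1, T h ≤ lg k₀)
  (hS : ∀ h ≤ T 0 + 1, ∀ z, Good T Js k₀ K h z → A O (tp z) z → L0 O (RR O) (g h) z)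
include hk hT hS

/-- Reliability of a successful certificate. -/
theorem reliable {d l : ℕ} {x : Str} (hd : d ≤ T 0) (hx : Good T Js k₀ K (d + 1) x)
    (hη : ∀ y, Below x (d + 1) y → ∀ i, i + (d + 1) ≤ T 0 → ¬A O i y) (n : ℕ) :
    ∀ y, Below x (d + 1) y → lam (par^[d] y) = l → A O (T 0 - d) y →
      ((aa (par^[d] y)).getD (kk y.length) []).length + n = ex (kk x.length + l) →
      ∀ v : Str, v.length ≤ n →
        nu O x (ex (kk x.length + l)) ((aa (par^[d] y)).getD (kk y.length) [] ++ v) := by
  induction n with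
  | zero => ?_
  | succ n ih => ?_
  all_goals
    intro y hy hl hA hn v hv
    have gy := (hx.below' hy).1
    have ty : tp y = T 0 := gy.tp_eq (hT 0 (by omega))
    obtain ⟨w, -, hw⟩ := check_of_clean (hS 0 (by omega) y gy) (l := T 0 - d) (by omega) hA
      fun i hi => hη y hy i (by omega)
    have e1 : tp y - (T 0 - d) = d := by omega
    have c := hy.split
    have e2 : cex y.length (kk x.length + l) = ex (kk x.length + l) := by
      have b1 := c.1.kk_le
      have b2 := c.2.2.2.2
      have b3 := hx.2.1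
      exact min_eq_right (ex_le_of_le_kk (by omega) (by omega))
    rcases hw with hw | hw
    swap
    · have := hw.1
      rw [gy.1, length_Pis] at this
      omega
    obtain ⟨w1, w2⟩ := hw.2
    rw [e1, c.2.1, hl, e2] at w1
    rw [e1, c.2.1, hl, e2] at w2
  · obtain rfl : v = [] := List.eq_nil_of_length_eq_zero (by omega)
    rwa [List.append_nil]
  · rcases v with _ | ⟨b, v⟩
    · rwa [List.append_nil]
    obtain ⟨ω, r1, r2, r3, r4, -, r5⟩ : ∃ ω, RB O (par^[d] y) d (kk y.length) (T 0 - d) b ω := by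
      cases b
      · exact ⟨_, (w2 (by omega)).1⟩
      · exact ⟨_, (w2 (by omega)).2⟩
    rw [c.2.1] at r2
    have := ih _ r2 (r3.trans hl) r5.sound
      (by rw [r1, r4, List.length_append, List.length_singleton]; omega) v (by simpa using hv)
    rwa [r1, r4, List.append_assoc] at this

variable (hr : K + 1 ≤ ex k₀) (hP : ∀ h ≤ T 0 + 1, (tup (Pis T Js h)).length ≤ ex k₀)
  (hg0 : g 0 = 3) (hg : ∀ d, g (d + 1) = room T d + T 0 + 4)
  (hK : ∀ h ≤ T 0 + 1, ∀ z, Good T Js k₀ K h z → (∀ l ≤ tp z, C (RR O) (g h) l z) → A O (T h) z)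
include hr hP hg0 hg hK

/-- The forcing induction. -/
theorem forcing (d : ℕ) : d ≤ T 0 + 1 → ∀ z, Good T Js k₀ K d z →
    (∀ y, Below z d y → ∀ e, d ≤ e → e ≤ T 0 → C (RR O) 3 (T 0 - e) y) →
    ∃ y, Below z d y ∧ ∃ i, i + d ≤ T 0 ∧ A O i y := by
  classical
  induction d with
  | zero =>
    intro _ z hz h
    have tz : tp z = T 0 := hz.tp_eq (hT 0 (by omega))
    refine ⟨z, rfl, T 0, le_rfl, hK 0 (by omega) z hz fun l hl => ?_⟩
    have := h z rfl (T 0 - l) (by omega) (by omega)
    rwa [show T 0 - (T 0 - l) = l by omega, ← hg0] at this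
  | succ d ih =>
    intro hd x hx h
    by_contra hη
    replace hη : ∀ y, Below x (d + 1) y → ∀ i, i + (d + 1) ≤ T 0 → ¬A O i y :=
      fun y hy i hi hA => hη ⟨y, hy, i, hi, hA⟩
    have tx : tp x = T (d + 1) := hx.tp_eq (hT _ hd)
    have px : (PP x).length = d + 2 := by rw [hx.1, length_Pis]
    have hno : ¬A O (tp x) x := by
      intro hA
      have hex : ∃ l, A O l x := ⟨_, hA⟩
      obtain ⟨w, -, hw⟩ := check_of_clean (hS _ hd x hx) (Nat.find_min' hex hA)
        (Nat.find_spec hex) fun i hi => Nat.find_min hex hi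
      rcases hw with hw | hw
      · have := hw.1; omega
      obtain ⟨w1, w2, w3, w4⟩ := hw.2
      rw [px, Nat.add_sub_cancel] at w1 w2 w3 w4
      rw [(hx.below' w1).1.tp_eq (hT 0 (by omega))] at w4
      obtain ⟨j, j1, v, j2, j3⟩ := Nat.find_spec hex
      have := reliable hk hT hS (by omega) hx hη _ _ w1 w2 w4.sound (by rw [w3]; simp) v j2
      rw [w3] at this
      exact this j j1 j3
    refine hno (tx ▸ hK _ hd x hx fun l hl => ?_)
    have hnu : ∀ u : Str, u.length ≤ ex (kk x.length + l) → nu O x (ex (kk x.length + l)) u :=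
      fun u hu j hj ho => hno (A.mono ⟨j, hj, u, hu, ho⟩ hl)
    have hc : ∀ a, Row (K + 1) (ex (kk x.length + l)) a → Child (mk (Pis T Js d) x l a) x :=
      fun a ha => child_mk hx hl ha hk hr (hP d (by omega))
    obtain ⟨a, k, ha, -, ha0, y, y1, y2, y3⟩ := layering (K + 1) (ex (kk x.length + l))
      (fun a k => ∃ y, Below (mk (Pis T Js d) x l a) d y ∧ kk y.length = k ∧ A O (T 0 - d) y) (by
        intro a ha hpre
        have gz := hx.child (hc a ha)
        obtain ⟨y, y1, i, y2, y3⟩ := ih (by omega) _ gz (by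
          intro y hy e he he'
          rcases he.eq_or_lt with rfl | he
          swap
          · exact h y (hy.snoc (hc a ha)) e he he'
          have gy := (gz.below' hy).1
          have ty : tp y = T 0 := gy.tp_eq (hT 0 (by omega))
          have e1 : tp y - (T 0 - d) = d := by omega
          have e2 : cex y.length (kk x.length + l) = ex (kk x.length + l) := by
            have b1 := hy.kk_le
            have b2 := (hc a ha).2.2.2
            have b3 := hx.2.1
            rw [lam_mk] at b2
            exact min_eq_right (ex_le_of_le_kk (by omega) (by omega))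
          have ky : kk y.length < K + 1 := by have := gy.2.2; omega
          have hu : (a.getD (kk y.length) []).length ≤ ex (kk x.length + l) := by
            rw [List.getD_eq_getElem _ _ (by rw [ha.1]; exact ky)]
            exact ha.2 _ (List.getElem_mem _)
          suffices hs : ∃ w : Str, w.length ≤ ex (kk y.length + (T 0 - d) + 3) ∧
              ((a.getD (kk y.length) []).length < ex (kk x.length + l) →
                RB O (mk (Pis T Js d) x l a) d (kk y.length) (T 0 - d) false (fld 0 w) ∧
                RB O (mk (Pis T Js d) x l a) d (kk y.length) (T 0 - d) true (fld 1 w)) by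
            obtain ⟨w, w1, w2⟩ := hs
            refine ⟨w, w1, Or.inl ⟨by rw [gy.1, length_Pis], ?_⟩⟩
            rw [e1, hy.iter, (hc a ha).1, lam_mk, e2, RT, (hc a ha).1, aa_mk]
            exact ⟨hnu _ hu, w2⟩
          by_cases hlt : (a.getD (kk y.length) []).length < ex (kk x.length + l)
          swap
          · exact ⟨[], Nat.zero_le _, fun h => absurd h hlt⟩
          have hb : ∀ b : Bool, ∃ ω : Str, ω.length ≤ 8 * ex (kk y.length + (T 0 - d) + 1) ∧
              RB O (mk (Pis T Js d) x l a) d (kk y.length) (T 0 - d) b ω := by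
            intro b
            obtain ⟨a', b1, b2, b3, y', b4, b5, b6⟩ := hpre _ ky hlt b
            obtain ⟨ω, rfl, b7, b8⟩ := b6.wit
            refine ⟨ω, b5 ▸ b8, b5, ?_, ?_, ?_, ?_, b7⟩
            · rw [(hc a ha).1]; exact b4.snoc (hc a' b1)
            · rw [b4.iter, lam_mk, lam_mk]
            · rw [b4.iter, aa_mk, aa_mk, b2]
            · rw [b4.iter, aa_mk, aa_mk, b3]
          obtain ⟨ω₀, b1, b2⟩ := hb false
          obtain ⟨ω₁, b3, b4⟩ := hb true
          refine ⟨tup [ω₀, ω₁], ?_, fun _ => by simpa [fld_tup] using ⟨b2, b4⟩⟩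
          have := ex_add_three (kk y.length + (T 0 - d))
          have := two_le_ex (kk y.length + (T 0 - d) + 1)
          simp only [length_tup_cons, length_tup_nil]
          omega)
        have := (gz.below' y1).1.2.2
        exact ⟨_, by omega, y, y1, rfl, y3.mono (by omega)⟩)
    have gz := hx.child (hc a ha)
    obtain ⟨gy, ky⟩ := gz.below' y1
    obtain ⟨ω, rfl, b1, b2⟩ := y3.wit
    refine ⟨ω, ?_, Or.inr ⟨by omega, ?_⟩⟩
    · have b3 := ex_add_three (kk (fld 0 ω).length + (T 0 - d))
      have b4 := (hc a ha).2.2.2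
      rw [lam_mk] at b4
      have b5 : ex (kk (fld 0 ω).length + (T 0 - d) + 3) ≤ ex (kk x.length + l + g (d + 1)) :=
        ex_mono (by rw [hg]; omega)
      omega
    · rw [px, Nat.add_sub_cancel]
      refine ⟨y1.snoc (hc a ha), by rw [y1.iter, lam_mk], by rw [y1.iter, aa_mk, y2, ha0], ?_⟩
      rwa [gy.tp_eq (hT 0 (by omega))]

theorem no_window (hKe : k₀ + room T (T 0 + 1) ≤ K) : False := by
  have h1 := hP _ le_rfl
  have h2 : 16 ≤ ex k₀ := ex_mono (a := 2) hk
  have h3 : kk (tup [tup (Pis T Js (T 0 + 1)), List.replicate (ex k₀) true]).length = k₀ := by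
    refine kk_eq ?_ ?_
    · simp only [length_tup_cons, List.length_replicate]; omega
    · rw [ex_succ]
      simp only [length_tup_cons, List.length_replicate, length_tup_nil]
      nlinarith
  obtain ⟨_, _, i, hi, _⟩ := forcing hk hT hS hr hP hg0 hg hK (T 0 + 1) le_rfl
    (tup [tup (Pis T Js (T 0 + 1)), List.replicate (ex k₀) true])
    ⟨by rw [PP, fld_tup]; exact blocks_tup _, h3.ge, by rw [h3]; exact hKe⟩
    fun _ _ e h1 h2 => by omega
  omega

end

end Pool.Agent.P.MP_435dae_lc.Opt
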