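import Pool.Agent.P.MP_435dae_lc.OptNum

/-! Self-trusting languages and their optimal proof systems. -/

namespace Pool.Agent.P.MP_435dae_lc.Opt

open Function N487b59b3 N68a2faeb Pool.Agent.Lib.PolyTime

/-- The parameter list of a string. -/
def PP (z : Str) : List Str := blocks (fld 0 z)

/-- The machines trusted at a string. -/
def JJ (z : Str) : List Str := blocks (fld 0 ((PP z).headD []))

/-- The top level of a string. -/
def tp (z : Str) : ℕ := min (fld 1 ((PP z).headD [])).length (lg (kk z.length))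

theorem length_le_of_mem_JJ {j z : Str} (h : j ∈ JJ z) : j.length ≤ z.length := by
  have h1 := length_le_of_mem_blocks h
  have h2 := length_fld_le 0 ((PP z).headD [])
  have h3 := length_fld_le 0 z
  have h4 : ((PP z).headD []).length ≤ (fld 0 z).length := by
    rcases e : PP z with _ | ⟨a, l⟩
    · simp
    · exact length_le_of_mem_blocks (show a ∈ PP z by simp [e])
  omega

variable {α : Type} [N487b59b3 α]

@[fun_prop] theorem pt_PP {z : α → Str} (hz : PT z) : PT fun a => PP (z a) := by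
  unfold PP; fun_prop

@[fun_prop] theorem pt_JJ {z : α → Str} (hz : PT z) : PT fun a => JJ (z a) := by
  unfold JJ; fun_prop

@[fun_prop] theorem pt_tp {z : α → Str} (hz : PT z) : PT fun a => tp (z a) := by
  unfold tp; fun_prop

@[fun_prop] theorem small_tp {z : α → Str} (hz : PT z) : Small fun a => tp (z a) :=
  Small.min (small_lg (by fun_prop))

variable (O : Str → Bool)

/-- Machine `j` accepts `x` within `s`. -/
def Acc (j x : Str) (s : ℕ) : Prop := ∃ v : Str, v.length ≤ s ∧ Out O j v s x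

/-- A trusted machine accepts `x` at level `l`. -/
def A (l : ℕ) (x : Str) : Prop := ∃ j ∈ JJ x, Acc O j x (ex (kk x.length + l))

/-- `ω` witnesses acceptance of its first field at level `l`. -/
def Wit (ω : Str) (l : ℕ) : Prop :=
  fld 1 ω ∈ JJ (fld 0 ω) ∧ (fld 2 ω).length ≤ (fld 3 ω).length ∧
    (fld 3 ω).length ≤ ex (kk (fld 0 ω).length + l) ∧
    Out O (fld 1 ω) (fld 2 ω) (fld 3 ω).length (fld 0 ω)

variable {O}

theorem Acc.mono {j x : Str} {s t : ℕ} (h : Acc O j x s) (hs : s ≤ t) : Acc O j x t := by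
  obtain ⟨v, h1, h2⟩ := h
  exact ⟨v, h1.trans hs, h2.mono hs⟩

theorem A.mono {x : Str} {l m : ℕ} (h : A O l x) (hl : l ≤ m) : A O m x := by
  obtain ⟨j, h1, h2⟩ := h
  exact ⟨j, h1, h2.mono (ex_mono (by omega))⟩

theorem Wit.sound {ω : Str} {l : ℕ} (h : Wit O ω l) : A O l (fld 0 ω) :=
  ⟨_, h.1, _, h.2.1.trans h.2.2.1, h.2.2.2.mono h.2.2.1⟩

theorem A.wit {y : Str} {l : ℕ} (h : A O l y) :
    ∃ ω, fld 0 ω = y ∧ Wit O ω l ∧ ω.length ≤ 8 * ex (kk y.length + l + 1) := by
  obtain ⟨j, h1, v, h2, h3⟩ := h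
  refine ⟨tup [y, j, v, List.replicate (ex (kk y.length + l)) true], by simp [fld_tup], ?_, ?_⟩
  · simp [Wit, fld_tup, h1, h2, h3]
  · have a1 := length_le_of_mem_JJ h1
    have a2 := lt_ex_kk y.length
    have a3 : ex (kk y.length + 1) ≤ ex (kk y.length + l + 1) := ex_mono (by omega)
    have a4 : ex (kk y.length + l) ≤ ex (kk y.length + l + 1) := ex_mono (by omega)
    simp
    omega

theorem dec_wit {ω : α → Str} {l : α → ℕ} (hω : PT ω) (hl : PT l) :
    Dec O fun a => Wit O (ω a) (l a) :=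
  (Dec.of_ptp (by fun_prop)).and ((Dec.of_ptp (by fun_prop)).and
    ((Dec.of_ptp (ptp_le_ex (by fun_prop) (by fun_prop))).and
      (dec_out (by fun_prop) (by fun_prop) (by fun_prop) (by fun_prop) (by fun_prop))))

variable (O) (R : Str → ℕ → Str → Prop) (g : ℕ)

/-- The check at level `l`. -/
def C (l : ℕ) (x : Str) : Prop := ∃ w : Str, w.length ≤ ex (kk x.length + l + g) ∧ R x l w

/-- The language without the validity test. -/
def L0 (x : Str) : Prop := ∃ l ≤ tp x, (∀ i ≤ l, C R g i x) ∧ (l = tp x ∨ A O l x)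

/-- Machine `j` is caught on a string much shorter than `n`. -/
def Disc (j : Str) (n : ℕ) : Prop :=
  ∃ y : Str, ex (kk y.length + tp y + g + 1) ≤ lg n ∧ y ≠ [] ∧
    Acc O j y (ex (kk y.length + tp y)) ∧ ¬L0 O R g y

/-- Every admitted machine is trusted or caught. -/
def Valid (x : Str) : Prop := ∀ j, adm j x.length → j ∈ JJ x ∨ Disc O R g j x.length

open Classical in
/-- The language. -/
noncomputable def LL (x : Str) : Bool := decide (x = [] ∨ (L0 O R g x ∧ Valid O R g x))

/-- Correct proofs. -/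
def Ok (π : Str) : Prop :=
  (fld 1 π).length ≤ tp (fld 0 π) ∧
    (∀ i ∈ List.range ((fld 1 π).length + 1),
      (fld i (fld 2 π)).length ≤ ex (kk (fld 0 π).length + i + g) ∧
        R (fld 0 π) i (fld i (fld 2 π))) ∧
    ((fld 1 π).length = tp (fld 0 π) ∨
      (fld 0 (fld 3 π) = fld 0 π ∧ Wit O (fld 3 π) (fld 1 π).length)) ∧
    Valid O R g (fld 0 π)

open Classical in
/-- The proof system. -/
noncomputable def ff (π : Str) : Str := if Ok O R g π then fld 0 π else []

variable {O R g}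

theorem Disc.mono {j : Str} {a b : ℕ} (h : Disc O R g j a) (hab : a ≤ b) : Disc O R g j b := by
  obtain ⟨y, h1, h2⟩ := h
  exact ⟨y, h1.trans (Nat.log_mono_right hab), h2⟩

theorem LL_iff {x : Str} : LL O R g x = true ↔ x = [] ∨ (L0 O R g x ∧ Valid O R g x) := by
  simp [LL]

section

/-- Acceptance within a scale below `N`. -/
def AccB (O : Str → Bool) (N : ℕ) (j x : Str) (k : ℕ) : Prop :=
  ∃ v ∈ upTo N, v.length ≤ cex N k ∧ Out O j v (cex N k) x

theorem accB_iff {N k : ℕ} {j x : Str} (h : ex k ≤ N) : AccB O N j x k ↔ Acc O j x (ex k) := by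
  simp only [AccB, Acc, cex, min_eq_right h, mem_upTo]
  exact exists_congr fun v => ⟨fun h => h.2, fun h' => ⟨h'.1.trans h, h'⟩⟩

theorem dec_accB {n k : α → ℕ} {j x : α → Str} (hn : PT n) (hs : Small n) (hj : PT j)
    (hx : PT x) (hk : PT k) : Dec O fun a => AccB O (lg (n a)) (j a) (x a) (k a) :=
  Dec.exists_mem (p := fun a (v : Str) => v.length ≤ cex (lg (n a)) (k a) ∧
      Out O (j a) v (cex (lg (n a)) (k a)) (x a)) (pt_upTo hn hs)
    ((Dec.of_ptp (by fun_prop)).and
      (dec_out (by fun_prop) (by fun_prop) (by fun_prop) (by fun_prop) (by fun_prop)))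

variable (hR : Dec O fun p : Str × ℕ × Str => R p.1 p.2.1 p.2.2)
include hR

theorem dec_R {x w : α → Str} {l : α → ℕ} (hx : PT x) (hl : PT l) (hw : PT w) :
    Dec O fun a => R (x a) (l a) (w a) :=
  hR.comp (g := fun a => (x a, l a, w a)) (by fun_prop)

theorem dec_disc {j : α → Str} {n : α → ℕ} (hj : PT j) (hn : PT n) (hs : Small n) :
    Dec O fun a => Disc O R g (j a) (n a) := by
  have h1 : Dec O fun p : (α × Str) × ℕ => ∀ i ∈ List.range (tp p.1.2 + 1), i ≤ p.2 →
      ∃ w ∈ upTo (lg (n p.1.1)), w.length ≤ ex (kk p.1.2.length + i + g) ∧ R p.1.2 i w :=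
    Dec.forall_mem (p := fun (p : (α × Str) × ℕ) i => i ≤ p.2 →
        ∃ w ∈ upTo (lg (n p.1.1)), w.length ≤ ex (kk p.1.2.length + i + g) ∧ R p.1.2 i w)
      (by fun_prop) ((Dec.of_ptp (by fun_prop)).imp
        (Dec.exists_mem (p := fun (p : ((α × Str) × ℕ) × ℕ) (w : Str) =>
            w.length ≤ ex (kk p.1.1.2.length + p.2 + g) ∧ R p.1.1.2 p.2 w)
          (pt_upTo (by fun_prop) (by fun_prop))
          ((Dec.of_ptp (ptp_le_ex (by fun_prop) (by fun_prop))).and
            (dec_R hR (by fun_prop) (by fun_prop) (by fun_prop)))))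
  have h2 : Dec O fun p : (α × Str) × ℕ =>
      ∃ i ∈ JJ p.1.2, AccB O (lg (n p.1.1)) i p.1.2 (kk p.1.2.length + p.2) :=
    Dec.exists_mem (p := fun (p : (α × Str) × ℕ) (i : Str) =>
        AccB O (lg (n p.1.1)) i p.1.2 (kk p.1.2.length + p.2)) (by fun_prop)
      (dec_accB (by fun_prop) (by fun_prop) (by fun_prop) (by fun_prop) (by fun_prop))
  have h3 : Dec O fun p : α × Str => ∃ l ∈ List.range (tp p.2 + 1),
      (∀ i ∈ List.range (tp p.2 + 1), i ≤ l →
        ∃ w ∈ upTo (lg (n p.1)), w.length ≤ ex (kk p.2.length + i + g) ∧ R p.2 i w) ∧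
      (l = tp p.2 ∨ ∃ i ∈ JJ p.2, AccB O (lg (n p.1)) i p.2 (kk p.2.length + l)) :=
    Dec.exists_mem (p := fun (p : α × Str) (l : ℕ) =>
      (∀ i ∈ List.range (tp p.2 + 1), i ≤ l →
        ∃ w ∈ upTo (lg (n p.1)), w.length ≤ ex (kk p.2.length + i + g) ∧ R p.2 i w) ∧
      (l = tp p.2 ∨ ∃ i ∈ JJ p.2, AccB O (lg (n p.1)) i p.2 (kk p.2.length + l)))
      (by fun_prop) (h1.and ((Dec.of_ptp (by fun_prop)).or h2))
  have h4 : Dec O fun p : α × Str => ex (kk p.2.length + tp p.2 + g + 1) ≤ lg (n p.1) :=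
    Dec.of_ptp (ptp_ex_le (by fun_prop) (by fun_prop))
  have h5 : Dec O fun p : α × Str => AccB O (lg (n p.1)) (j p.1) p.2 (kk p.2.length + tp p.2) :=
    dec_accB (by fun_prop) (by fun_prop) (by fun_prop) (by fun_prop) (by fun_prop)
  have h6 : Dec O fun p : α × Str => p.2 ≠ [] := Dec.of_ptp (by fun_prop)
  refine (Dec.exists_mem (pt_upTo hn hs)
    (p := fun a (y : Str) => ex (kk y.length + tp y + g + 1) ≤ lg (n a) ∧ y ≠ [] ∧
      Acc O (j a) y (ex (kk y.length + tp y)) ∧ ¬L0 O R g y)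
    ((h4.and (h6.and (h5.and h3.not))).congr fun p => ?_)).congr fun a => ?_
  · refine and_congr_right fun hb => and_congr_right fun _ => ?_
    have hk : ∀ i ≤ tp p.2, ex (kk p.2.length + i + g) ≤ lg (n p.1) ∧
        ex (kk p.2.length + i) ≤ lg (n p.1) := fun i hi =>
      ⟨(ex_mono (by omega)).trans hb, (ex_mono (by omega)).trans hb⟩
    rw [accB_iff (hk _ le_rfl).2]
    refine and_congr_right fun _ => not_congr (exists_congr fun l => ?_)
    rw [List.mem_range, Nat.lt_succ_iff]
    refine and_congr_right fun hl => and_congr ?_ (or_congr_right ?_)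
    · refine forall_congr' fun i => ⟨fun h _ hi => ?_, fun h hi => ?_⟩
      · obtain ⟨w, a1, a2⟩ := h hi
        exact ⟨w, mem_upTo.2 (a1.trans (hk i (by omega)).1), a1, a2⟩
      · obtain ⟨w, -, a1⟩ := h (List.mem_range.2 (by omega)) hi
        exact ⟨w, a1⟩
    · exact exists_congr fun i => and_congr_right fun _ => (accB_iff (hk l hl).2).symm
  · refine exists_congr fun y => ⟨fun h => ⟨mem_upTo.2 ?_, h⟩, fun h => h.2⟩
    exact (lt_ex_kk _).le.trans ((ex_mono (by omega)).trans h.1)

theorem dec_valid {x : α → Str} (hx : PT x) : Dec O fun a => Valid O R g (x a) :=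
  (Dec.forall_mem (l := fun a => upTo (lg (x a).length))
    (p := fun a (j : Str) => adm j (x a).length → j ∈ JJ (x a) ∨ Disc O R g j (x a).length)
    (pt_upTo (by fun_prop) (by fun_prop))
    ((Dec.of_ptp (ptp_adm (by fun_prop) (by fun_prop) (by fun_prop))).imp
      ((Dec.of_ptp (by fun_prop)).or
        (dec_disc hR (by fun_prop) (by fun_prop) (by fun_prop))))).congr fun a =>
    ⟨fun h j _ => h j, fun h j hj => h j (mem_upTo.2 hj.le_lg) hj⟩

theorem polyTimeIn_ff : PolyTimeIn O (ff O R g) := by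
  have h : Dec O (Ok O R g) :=
    (Dec.of_ptp (by fun_prop)).and ((Dec.forall_mem (p := fun (π : Str) (i : ℕ) =>
        (fld i (fld 2 π)).length ≤ ex (kk (fld 0 π).length + i + g) ∧
          R (fld 0 π) i (fld i (fld 2 π))) (by fun_prop)
        ((Dec.of_ptp (ptp_le_ex (by fun_prop) (by fun_prop))).and
          (dec_R hR (by fun_prop) (by fun_prop) (by fun_prop)))).and
      (((Dec.of_ptp (by fun_prop)).or
        ((Dec.of_ptp (by fun_prop)).and (dec_wit (by fun_prop) (by fun_prop)))).and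
        (dec_valid hR (by fun_prop))))
  exact h.ite_polyTimeIn (by fun_prop) (PT.const _)

end

theorem Ok.mem {π : Str} (h : Ok O R g π) : LL O R g (fld 0 π) = true := by
  obtain ⟨h1, h2, h3, h4⟩ := h
  refine LL_iff.2 (Or.inr ⟨⟨_, h1, fun i hi => ⟨_, h2 i (List.mem_range.2 (by omega))⟩, ?_⟩, h4⟩)
  rcases h3 with h | h
  · exact Or.inl h
  · exact Or.inr (h.1 ▸ h.2.sound)

theorem ff_nil : ∃ π : Str, π.length = 0 ∧ ff O R g π = [] := by
  refine ⟨[], rfl, ?_⟩
  unfold ff
  split_ifs <;> rfl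

theorem exists_proof {x : Str} {l : ℕ} (hl : l ≤ tp x) (hC : ∀ i ≤ l, C R g i x)
    (hA : l = tp x ∨ A O l x) (hV : Valid O R g x) :
    ∃ π : Str, π.length ≤ ex (kk x.length + l + g + 4) ∧ ff O R g π = x := by
  choose! w hw using hC
  obtain ⟨ω, h1, h2⟩ : ∃ ω : Str, (l = tp x ∨ (fld 0 ω = x ∧ Wit O ω l)) ∧
      ω.length ≤ 8 * ex (kk x.length + l + 1) := by
    rcases hA with h | h
    · exact ⟨[], Or.inl h, Nat.zero_le _⟩
    · obtain ⟨ω, a1, a2, a3⟩ := h.wit
      exact ⟨ω, Or.inr ⟨a1, a2⟩, a3⟩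
  have hws : (tup ((List.range (l + 1)).map w)).length ≤
      (l + 1) * (2 * ex (kk x.length + l + g) + 1) := by
    have := length_tup_le (l := (List.range (l + 1)).map w) (B := ex (kk x.length + l + g))
      fun u hu => by
        obtain ⟨i, hi, rfl⟩ := List.mem_map.1 hu
        rw [List.mem_range] at hi
        exact (hw i (by omega)).1.trans (ex_mono (by omega))
    simpa using this
  refine ⟨tup [x, List.replicate l true, tup ((List.range (l + 1)).map w), ω], ?_, ?_⟩
  · have a1 := lt_ex (kk x.length + l + g)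
    have a2 := lt_ex_kk x.length
    have a3 : ex (kk x.length + 1) ≤ ex (kk x.length + l + g + 1) := ex_mono (by omega)
    have a4 : ex (kk x.length + l + 1) ≤ ex (kk x.length + l + g + 1) := ex_mono (by omega)
    have a5 := ex_succ (kk x.length + l + g)
    have a6 := ex_add_three (kk x.length + l + g)
    have a7 : ex (kk x.length + l + g + 3) ≤ ex (kk x.length + l + g + 4) := ex_mono (by omega)
    have a8 : (l + 1) * (2 * ex (kk x.length + l + g) + 1) ≤
        ex (kk x.length + l + g) * (3 * ex (kk x.length + l + g)) :=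
      Nat.mul_le_mul (by omega) (by omega)
    simp only [length_tup_cons, length_tup_nil, List.length_replicate]
    nlinarith
  · have e : ∀ i < l + 1, fld i (tup ((List.range (l + 1)).map w)) = w i := fun i hi => by
      rw [fld_tup, List.getD_eq_getElem _ _ (by simpa using hi)]; simp
    have : Ok O R g (tup [x, List.replicate l true, tup ((List.range (l + 1)).map w), ω]) := by
      refine ⟨by simpa [fld_tup] using hl, fun i hi => ?_, by simpa [fld_tup] using h1,
        by simpa [fld_tup] using hV⟩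
      have hi' : i < l + 1 := by simpa [fld_tup] using hi
      have e0 : fld 0 (tup [x, List.replicate l true, tup ((List.range (l + 1)).map w), ω]) = x := by
        simp [fld_tup]
      have e2 : fld 2 (tup [x, List.replicate l true, tup ((List.range (l + 1)).map w), ω]) =
          tup ((List.range (l + 1)).map w) := by simp [fld_tup]
      rw [e0, e2, e i hi']
      exact hw i (by omega)
    rw [ff, if_pos this]
    simp [fld_tup]

theorem exists_proof_top {x : Str} (h : LL O R g x = true) :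
    ∃ π : Str, π.length ≤ ex (kk x.length + tp x + g + 4) ∧ ff O R g π = x := by
  rcases LL_iff.1 h with rfl | ⟨⟨l, h1, h2, h3⟩, h4⟩
  · obtain ⟨π, a1, a2⟩ := ff_nil (O := O) (R := R) (g := g)
    exact ⟨π, by omega, a2⟩
  · obtain ⟨π, a1, a2⟩ := exists_proof h1 h2 h3 h4
    exact ⟨π, a1.trans (ex_mono (by omega)), a2⟩

theorem LL_ff (π : Str) : LL O R g (ff O R g π) = true := by
  unfold ff
  split_ifs with h
  · exact h.mem
  · exact LL_iff.2 (Or.inl rfl)

/-- A machine that accepts only members of the language is trusted on long valid strings. -/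
theorem trusted {j : Str} (hj : ∀ w s x, Out O j w s x → LL O R g x = true) :
    ∃ n, ∀ x : Str, n ≤ x.length → Valid O R g x → j ∈ JJ x := by
  obtain ⟨n, hn⟩ := exists_adm j
  refine ⟨n, fun x hx hV => (hV j (hn.mono hx)).resolve_right ?_⟩
  rintro ⟨y, -, h1, ⟨v, -, h2⟩, h3⟩
  rcases LL_iff.1 (hj _ _ _ h2) with h | h
  · exact h1 h
  · exact h3 h.1

theorem quasi {x : Str} (h : LL O R g x = true) : ∃ π : Str, ff O R g π = x ∧
    π.length ≤ (x.length + 2) ^ (2 ^ (g + 4) * (Nat.log 2 (Nat.log 2 x.length) + 1)) := by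
  obtain ⟨π, h1, h2⟩ := exists_proof_top h
  refine ⟨π, h2, h1.trans ?_⟩
  have a1 : 2 ^ tp x ≤ kk x.length + 1 := by
    refine (Nat.pow_le_pow_right (by omega) (min_le_right _ _)).trans ?_
    rcases Nat.eq_zero_or_pos (kk x.length) with h | h
    · simp [h]
    · exact (Nat.pow_log_le_self 2 h.ne').trans (by omega)
  rw [show kk x.length + tp x + g + 4 = kk x.length + (g + 4 + tp x) by omega, ex_add, pow_add]
  exact (Nat.pow_le_pow_left (ex_kk_le' _) _).trans
    (Nat.pow_le_pow_right (by omega) (Nat.mul_le_mul_left _ a1))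

theorem optimal (hR : Dec O fun p : Str × ℕ × Str => R p.1 p.2.1 p.2.2) :
    PolyOptimalIn O (ff O R g) (LL O R g) := by
  refine ⟨⟨polyTimeIn_ff hR, fun y => ⟨fun h => ?_, ?_⟩⟩, fun f hf => ?_⟩
  · obtain ⟨π, -, h⟩ := exists_proof_top h
    exact ⟨π, h⟩
  · rintro ⟨π, rfl⟩
    exact LL_ff π
  obtain ⟨j, K, hs, hc⟩ := exists_machine hf.1
  have hL : ∀ w, LL O R g (f w) = true := fun w => (hf.2 _).2 ⟨w, rfl⟩
  obtain ⟨n, hn⟩ := trusted (O := O) (R := R) (g := g) (j := j) fun w s x h => hs w s x h ▸ hL w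
  obtain ⟨q, o, m, hq, ho, ⟨pm, hm⟩, hfo⟩ := Flex.of_polyTimeIn hf.1
  obtain ⟨po, hpo⟩ := ho.size
  have hlen : ∀ w : Str, (f w).length ≤
      po.eval (2 * (3 * w.length) + 1 + 3 * pm.eval (3 * w.length)) := by
    intro w
    have a1 : sz (o (w, oans O q w (m w))) ≤ po.eval (sz (w, oans O q w (m w))) := hpo _
    have a2 : m w ≤ pm.eval (sz w) := hm w
    rw [← hfo w _ le_rfl, sz_pair, sz_str, sz_str, sz_str, length_oans] at a1
    rw [sz_str] at a2
    have := eval_mono po (show 2 * (3 * w.length) + 1 + 3 * m w ≤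
      2 * (3 * w.length) + 1 + 3 * pm.eval (3 * w.length) by omega)
    omega
  refine ⟨Polynomial.C (ex (n + n + g + 4)) +
    (po.comp (2 * (3 * Polynomial.X) + 1 + 3 * pm.comp (3 * Polynomial.X)) + 2 +
      ((Polynomial.X + 2) ^ (K + 1)) ^ 2) ^ 2 ^ (g + 4), fun w => ?_⟩
  simp only [Polynomial.eval_add, Polynomial.eval_comp, Polynomial.eval_mul, Polynomial.eval_C,
    Polynomial.eval_ofNat, Polynomial.eval_X, Polynomial.eval_one, Polynomial.eval_pow]
  rcases lt_or_ge (f w).length n with hx | hx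
  · obtain ⟨π, h1, h2⟩ := exists_proof_top (hL w)
    refine ⟨π, h1.trans ((ex_mono ?_).trans (Nat.le_add_right _ _)), h2⟩
    have a1 : kk (f w).length ≤ (f w).length := (Nat.log_le_self 2 _).trans (Nat.log_le_self 2 _)
    have a2 : tp (f w) ≤ kk (f w).length := (min_le_right _ _).trans (Nat.log_le_self 2 _)
    omega
  rcases LL_iff.1 (hL w) with h | ⟨⟨l, h1, h2, h3⟩, h4⟩
  · obtain ⟨π, a1, a2⟩ := ff_nil (O := O) (R := R) (g := g)
    exact ⟨π, by omega, a2.trans h.symm⟩
  set s := (w.length + 2) ^ (K + 1) with hsd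
  have s1 : (w.length + 2) ^ K ≤ s := Nat.pow_le_pow_right (by omega) (by omega)
  have s2 : w.length + 2 ≤ s := Nat.le_self_pow (by omega) _
  have hex : ∃ i, s ≤ ex (kk (f w).length + i) :=
    ⟨s, (by have := lt_ex s; omega : s ≤ ex s).trans (ex_mono (by omega))⟩
  classical
  have b1 := Nat.find_spec hex
  have b2 : ex (kk (f w).length + Nat.find hex) ≤ (f w).length + 2 + s ^ 2 := by
    rcases e : Nat.find hex with _ | i
    · exact (ex_kk_le' _).trans (by omega)
    · have := Nat.find_min hex (m := i) (by omega)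
      rw [← Nat.add_assoc, ex_succ]
      nlinarith
  have b3 : A O (Nat.find hex) (f w) :=
    ⟨j, hn _ hx h4, w, by omega, hc w _ (s1.trans b1)⟩
  obtain ⟨π, c1, c2⟩ := exists_proof (l := min l (Nat.find hex)) ((min_le_left _ _).trans h1)
    (fun i hi => h2 i (hi.trans (min_le_left _ _))) (by
      rcases le_total l (Nat.find hex) with h | h
      · rwa [min_eq_left h]
      · rw [min_eq_right h]; exact Or.inr b3) h4
  refine ⟨π, c1.trans (le_trans ?_ (Nat.le_add_left _ _)), c2⟩
  refine (ex_mono (b := kk (f w).length + Nat.find hex + (g + 4)) (by omega)).trans ?_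
  rw [ex_add]
  exact Nat.pow_le_pow_left (b2.trans (by have := hlen w; omega)) _

/-- If the language is in `NP`, long valid members are accepted at a bounded level. -/
theorem level_of_np (h : LL O R g ∈ NPIn O) : ∃ D n, ∀ x : Str, n ≤ x.length → Valid O R g x →
    (∀ l ≤ tp x, C R g l x) → A O D x := by
  classical
  obtain ⟨p, V, hV, h⟩ := h
  have h1 : Dec O fun π : Str => (fld 1 π).length ≤ p.eval (fld 0 π).length ∧
      V (fld 0 π, fld 1 π) = true :=
    (Dec.of_ptp (by fun_prop)).and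
      ⟨_, (Flex.of_polyTimeIn hV).comp (g := fun π : Str => (fld 0 π, fld 1 π)) (by fun_prop),
        fun _ => Iff.rfl⟩
  obtain ⟨j, K, hs, hc⟩ := exists_machine (h1.ite_polyTimeIn (inst := fun _ => inferInstance)
    (f := fun π => fld 0 π) (g := fun _ => []) (by fun_prop) (PT.const _))
  obtain ⟨n, hn⟩ := trusted (O := O) (R := R) (g := g) (j := j) fun w s x hx => by
    rw [hs w s x hx]
    split_ifs with e
    · exact (h _).2 ⟨_, e⟩
    · exact LL_iff.2 (Or.inl rfl)
  obtain ⟨c, hc'⟩ := poly_le_pow ((2 * Polynomial.X + 2 * p + 4) ^ (K + 1))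
  simp only [Polynomial.eval_add, Polynomial.eval_mul, Polynomial.eval_ofNat, Polynomial.eval_X,
    Polynomial.eval_pow] at hc'
  refine ⟨2 + c, n, fun x hx hv hC => ?_⟩
  obtain ⟨w, a1, a2⟩ := (h x).1 (LL_iff.2 (Or.inr ⟨⟨_, le_rfl, hC, Or.inl rfl⟩, hv⟩))
  have b1 : ((tup [x, w]).length + 2) ^ (K + 1) ≤ ex (kk x.length + (2 + c)) := by
    have c1 : x.length + 2 ≤ ex (kk x.length + 2) := by
      have := lt_ex_kk x.length
      have := ex_succ (kk x.length + 1)
      have := two_le_ex (kk x.length + 1)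
      nlinarith
    calc _ ≤ (2 * x.length + 2 * p.eval x.length + 4) ^ (K + 1) :=
          Nat.pow_le_pow_left (by simp; omega) _
      _ ≤ (x.length + 2) ^ c := hc' _
      _ ≤ ex (kk x.length + 2) ^ c := Nat.pow_le_pow_left c1 _
      _ ≤ ex (kk x.length + 2) ^ 2 ^ c :=
          Nat.pow_le_pow_right (by have := two_le_ex (kk x.length + 2); omega)
            Nat.lt_two_pow_self.le
      _ = _ := by rw [← ex_add, Nat.add_assoc]
  have b2 := hc (tup [x, w]) _ ((Nat.pow_le_pow_right (by omega) (Nat.le_succ K)).trans b1)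
  rw [if_pos (by simpa [fld_tup] using ⟨a1, a2⟩)] at b2
  refine ⟨j, hn x hx hv, tup [x, w], le_trans ?_ b1, by simpa [fld_tup] using b2⟩
  exact (Nat.le_add_right _ 2).trans (Nat.le_self_pow (by omega) _)

/-- On a clean string the check at the least accepting level holds. -/
theorem check_of_clean {x : Str} {l : ℕ} (hc : A O (tp x) x → L0 O R g x) (hl : l ≤ tp x)
    (h : A O l x) (hmin : ∀ i < l, ¬A O i x) : C R g l x := by
  obtain ⟨m, h1, h2, h3⟩ := hc (h.mono hl)
  refine h2 l ?_
  rcases h3 with h3 | h3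
  · omega
  · by_contra hn
    exact hmin m (by omega) h3

end Pool.Agent.P.MP_435dae_lc.Opt
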