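import Pool.Agent.P.MP_435dae_lc.OptForce

/-! One of the self-trusting languages is outside `NP`. -/

namespace Pool.Agent.P.MP_435dae_lc.Opt

open Function N487b59b3 N68a2faeb Pool.Agent.Lib.PolyTime

theorem pow_six_le_ex {k : ℕ} (hk : 5 ≤ k) : (k + 3) ^ 6 ≤ ex k := by
  induction k, hk using Nat.le_induction with
  | base => norm_num [ex]
  | succ k hk ih =>
    rw [ex_succ]
    calc (k + 1 + 3) ^ 6 ≤ ((k + 3) * (k + 3)) ^ 6 := Nat.pow_le_pow_left (by nlinarith) _
      _ = (k + 3) ^ 6 * (k + 3) ^ 6 := mul_pow _ _ _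
      _ ≤ _ := Nat.mul_le_mul ih ih

theorem length_tup_Pis {T : ℕ → ℕ} {Js : ℕ → List Str} {B : ℕ} (h : ℕ)
    (hB : ∀ i ≤ h, (ent T Js i).length ≤ B) :
    (tup (Pis T Js h)).length ≤ (h + 1) * (2 * B + 1) := by
  induction h with
  | zero => have := hB 0 le_rfl; simp [Pis]; omega
  | succ h ih =>
    have h1 := ih fun i hi => hB i (by omega)
    have h2 := hB _ le_rfl
    rw [Pis, length_tup_cons]
    nlinarith

/-- The room, computed from the level bounds. -/
def rm (D : ℕ → ℕ) : ℕ → ℕ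
  | 0 => 0
  | d + 1 => rm D d + D (rm D d + D 3 + 4) + 1

/-- The budget of the language of height `h`. -/
def gm (D : ℕ → ℕ) : ℕ → ℕ
  | 0 => 3
  | d + 1 => rm D d + D 3 + 4

theorem room_eq (D : ℕ → ℕ) (h : ℕ) : room (fun h => D (gm D h)) h = rm D h := by
  induction h with
  | zero => rfl
  | succ h ih => rw [room, ih]; rfl

theorem exists_not_np (O : Str → Bool) : ∃ g, LL O (RR O) g ∉ NPIn O := by
  classical
  by_contra hc
  push Not at hc
  choose D n hDn using fun g => level_of_np (hc g)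
  set T : ℕ → ℕ := fun h => D (gm D h) with hTd
  obtain ⟨M, hM'⟩ : ∃ M, ∀ h ≤ T 0 + 1,
      2 ^ T h + n (gm D h) + room T (T 0 + 1) + T h + gm D h + T 0 + 5 ≤ M :=
    ⟨(Finset.range (T 0 + 2)).sup fun h =>
        2 ^ T h + n (gm D h) + room T (T 0 + 1) + T h + gm D h + T 0 + 5,
      fun h hh => Finset.le_sup (f := fun h =>
        2 ^ T h + n (gm D h) + room T (T 0 + 1) + T h + gm D h + T 0 + 5)
        (Finset.mem_range.2 (by omega))⟩
  have hM : ∀ h ≤ T 0 + 1, n (gm D h) + room T (T 0 + 1) + T h + gm D h + T 0 + 5 ≤ M :=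
    fun h hh => by have := hM' h hh; generalize 2 ^ T h = a at this; omega
  have hM1 : ∀ h ≤ T 0 + 1, 2 ^ T h ≤ M :=
    fun h hh => by have := hM' h hh; generalize 2 ^ T h = a at this ⊢; omega
  clear hM'
  obtain ⟨t, ht⟩ := exists_clean (T 0 + 2) M (fun i j m => Disc O (RR O) (gm D i) j m)
    fun _ _ _ _ hab h => h.mono hab
  rw [blk_succ] at ht
  have hk : M ≤ blk M t := blk_mono M (Nat.zero_le t)
  set k := blk M t
  have k5 : 5 ≤ k := by have := hM 0 (by omega); omega
  have k6 := pow_six_le_ex k5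
  have k2 : 2 * k + 2 ≤ ex k :=
    le_trans (by nlinarith) ((Nat.pow_le_pow_right (by omega) (show 2 ≤ 6 by omega)).trans k6)
  let Js : ℕ → List Str := fun h => (upTo (lg (k + 3))).filter fun j =>
    decide (adm j (ex (ex (ex k))) ∧ ¬Disc O (RR O) (gm D h) j (ex k))
  have hJ : ∀ h j, j ∈ Js h ↔ adm j (ex (ex (ex k))) ∧ ¬Disc O (RR O) (gm D h) j (ex k) := by
    intro h j
    simp only [Js, List.mem_filter, decide_eq_true_eq, mem_upTo]
    refine ⟨fun h => h.2, fun h => ⟨?_, h⟩⟩
    have h1 := adm.lt_add (i := 3) (n := k) h.1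
    have h2 : 2 ^ j.length ≤ 4 ^ j.length := Nat.pow_le_pow_left (by omega) _
    exact Nat.le_log_of_pow_le (by omega) (by omega)
  have hT : ∀ h ≤ T 0 + 1, T h ≤ lg k := fun h hh =>
    Nat.le_log_of_pow_le (by omega) ((hM1 h hh).trans hk)
  have hlen : ∀ h z, Good T Js k (k + room T (T 0 + 1)) h z →
      ex k ≤ z.length ∧ z.length ≤ ex (ex (ex k)) := by
    intro h z hz
    have a1 := lt_ex_kk z.length
    have a2 := hz.2.2
    have a3 := hM 0 (by omega)
    have a4 := lt_ex (ex k)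
    have a5 : ex (kk z.length + 1) ≤ ex (ex (ex k)) := ex_mono (by omega)
    exact ⟨ex_le_of_le_kk (by omega) hz.2.1, by omega⟩
  refine no_window (T := T) (Js := Js) (k₀ := k) (K := k + room T (T 0 + 1)) (O := O)
    (g := gm D) (by omega) hT ?_ (by have := hM 0 (by omega); omega) ?_ rfl
    (fun d => by rw [hTd, room_eq]; rfl) ?_ le_rfl
  · rintro h hh z hz ⟨j, j1, j2⟩
    by_contra hn
    rw [hz.JJ_eq, hJ] at j1
    refine j1.2 (ht h (by omega) j j1.1 ⟨z, ?_, ?_, j2, hn⟩)
    · have a1 := hz.tp_le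
      have a2 := hz.2.2
      have a3 := hM h hh
      have a4 : lg (ex (ex (ex k))) = 2 ^ ex (ex k) := Nat.log_pow (by omega) _
      rw [a4]
      exact (ex_mono (by omega)).trans Nat.lt_two_pow_self.le
    · rintro rfl
      have := (hlen h _ hz).1
      simp only [List.length_nil] at this
      omega
  · intro h hh
    have b1 : lg (k + 3) < k + 3 := Nat.log_lt_self 2 (by omega)
    have b2 : 2 ^ lg (k + 3) ≤ k + 3 := Nat.pow_log_le_self 2 (by omega)
    have b3 : ∀ i, (tup (Js i)).length ≤ 2 * (k + 3) ^ 3 := fun i => by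
      have c1 := length_tup_le (l := Js i) (B := lg (k + 3)) fun j hj =>
        mem_upTo.1 (List.mem_of_mem_filter hj)
      have c2 : (Js i).length ≤ (lg (k + 3) + 1) * 2 ^ lg (k + 3) :=
        (List.length_filter_le _ _).trans (length_upTo _).le
      have c3 : (lg (k + 3) + 1) * 2 ^ lg (k + 3) ≤ (k + 3) * (k + 3) := Nat.mul_le_mul b1 b2
      have c4 : (Js i).length * (2 * lg (k + 3) + 1) ≤ (k + 3) * (k + 3) * (2 * (k + 3)) :=
        Nat.mul_le_mul (c2.trans c3) (by omega)
      nlinarith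
    have b4 : 2 * (k + 3) ≤ (k + 3) ^ 3 := by
      have : 2 ≤ (k + 3) ^ 2 := by nlinarith
      nlinarith
    have b5 := length_tup_Pis (T := T) (Js := Js) (B := 5 * (k + 3) ^ 3) h fun i hi => by
      have := b3 i
      have := hM i (by omega)
      simp only [ent, length_tup_cons, List.length_replicate, length_tup_nil]
      omega
    have b6 : (h + 1) * (2 * (5 * (k + 3) ^ 3) + 1) ≤ (k + 3) * (11 * (k + 3) ^ 3) :=
      Nat.mul_le_mul (by have := hM 0 (by omega); omega) (by omega)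
    have b7 : 11 * (k + 3) ^ 4 ≤ (k + 3) ^ 2 * (k + 3) ^ 4 :=
      Nat.mul_le_mul_right _ (by nlinarith)
    nlinarith
  · intro h hh z hz hC
    obtain ⟨a1, a2⟩ := hlen h z hz
    refine hDn (gm D h) z (by have := hM h hh; omega) (fun j hj => ?_) hC
    by_cases hd : Disc O (RR O) (gm D h) j (ex k)
    · exact Or.inr (hd.mono a1)
    · exact Or.inl (by rw [hz.JJ_eq, hJ]; exact ⟨hj.mono a2, hd⟩)

theorem main (O : Str → Bool) : ∃ L f, L ∉ NPIn O ∧ PolyOptimalIn O f L ∧
    ∃ c : ℕ, ∀ x, L x = true → ∃ w, f w = x ∧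
      w.length ≤ (x.length + 2) ^ (c * (Nat.log 2 (Nat.log 2 x.length) + 1)) := by
  obtain ⟨g, hg⟩ := exists_not_np O
  exact ⟨_, _, hg, optimal dec_RR, _, fun _ h => quasi h⟩

/-- With the empty oracle `PolyTimeIn` is ordinary polynomial time. -/
theorem polyTimeIn_empty {α β : Type} [N487b59b3 α] [N487b59b3 β] {f : α → β} :
    PolyTimeIn (fun _ => false) f ↔ IsPolyTime f := by
  refine ⟨?_, fun h => (Flex.of_pt (PT.of_isPolyTime h)).polyTimeIn⟩
  rintro ⟨q, o, p, -, ho, h⟩
  have e : ∀ (a : α) j, oans (fun _ => false) q a j = List.replicate j false := fun a j => by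
    induction j with
    | zero => rfl
    | succ j ih => rw [oans, ih, List.replicate_succ']
  have h1 := PT.of_isPolyTime ho
  have h2 : PT fun a : α => o (a, List.replicate (p.eval (sz a)) false) := by fun_prop
  exact (h2.congr fun a => by rw [h a, e]; rfl).isPolyTime

/-- With the empty oracle `NPIn` is `NP`. -/
theorem npIn_empty : NPIn (fun _ => false) = NP := by
  simp only [NPIn, NP, polyTimeIn_empty]

end Pool.Agent.P.MP_435dae_lc.Opt
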