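import Pool.Agent.P.MP_435dae_lc.OptOra

/-! Scales, admission of machines, clean blocks and the layering lemma. -/

namespace Pool.Agent.P.MP_435dae_lc.Opt

open Function N487b59b3 N68a2faeb Pool.Agent.Lib.PolyTime

/-- The scale `2 ^ 2 ^ k`. -/
def ex (k : ℕ) : ℕ := 2 ^ 2 ^ k

/-- Binary logarithm. -/
abbrev lg (n : ℕ) : ℕ := Nat.log 2 n

/-- Double logarithm. -/
def kk (n : ℕ) : ℕ := lg (lg n)

theorem ex_succ (k : ℕ) : ex (k + 1) = ex k * ex k := by
  rw [ex, ex, pow_succ, pow_mul, pow_two]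

theorem ex_add (k c : ℕ) : ex (k + c) = ex k ^ 2 ^ c := by
  rw [ex, ex, pow_add, pow_mul]

theorem ex_mono {a b : ℕ} (h : a ≤ b) : ex a ≤ ex b :=
  Nat.pow_le_pow_right (by omega) (Nat.pow_le_pow_right (by omega) h)

theorem lt_ex (k : ℕ) : k + 1 < ex k :=
  lt_of_le_of_lt (Nat.succ_le_of_lt Nat.lt_two_pow_self) Nat.lt_two_pow_self

theorem two_le_ex (k : ℕ) : 2 ≤ ex k := by have := lt_ex k; omega

theorem ex_add_three (k : ℕ) : 64 * ex (k + 1) ≤ ex (k + 3) := by
  have h0 : 4 ≤ ex (k + 1) := ex_mono (a := 1) (by omega)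
  have h1 : 16 ≤ ex (k + 2) := ex_mono (a := 2) (by omega)
  have h2 := ex_succ (k + 1)
  have h3 := ex_succ (k + 2)
  simp only [Nat.add_assoc, Nat.reduceAdd] at h2 h3
  nlinarith

theorem kk_mono {a b : ℕ} (h : a ≤ b) : kk a ≤ kk b := Nat.log_mono_right (Nat.log_mono_right h)

theorem kk_ex (k : ℕ) : kk (ex k) = k := by
  rw [kk, ex, lg, lg, Nat.log_pow (by omega), Nat.log_pow (by omega)]

theorem lt_ex_kk (n : ℕ) : n < ex (kk n + 1) := by
  have h1 : n < 2 ^ (lg n + 1) := Nat.lt_pow_succ_log_self (by omega) n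
  have h2 : lg n < 2 ^ (kk n + 1) := Nat.lt_pow_succ_log_self (by omega) _
  exact h1.trans_le (Nat.pow_le_pow_right (by omega) h2)

theorem ex_kk_le {n : ℕ} (h : 2 ≤ n) : ex (kk n) ≤ n := by
  have h1 : lg n ≠ 0 := by
    have : 1 ≤ lg n := Nat.le_log_of_pow_le (by omega) (by simpa using h)
    omega
  exact (Nat.pow_le_pow_right (by omega) (Nat.pow_log_le_self 2 h1)).trans
    (Nat.pow_log_le_self 2 (by omega))

theorem ex_kk_le' (n : ℕ) : ex (kk n) ≤ n + 2 := by
  rcases le_or_gt 2 n with h | h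
  · exact (ex_kk_le h).trans (by omega)
  · interval_cases n <;> simp [kk, ex]

theorem ex_le_of_le_kk {n k : ℕ} (hk : 1 ≤ k) (h : k ≤ kk n) : ex k ≤ n := by
  refine (ex_mono h).trans (ex_kk_le ?_)
  by_contra hn
  have h1 : kk n ≤ kk 1 := kk_mono (by omega)
  have h2 : kk 1 = 0 := by simp [kk]
  omega

theorem kk_eq {n k : ℕ} (h1 : ex k ≤ n) (h2 : n < ex (k + 1)) : kk n = k := by
  have h3 := kk_mono h1
  rw [kk_ex] at h3
  by_contra h
  have := ex_le_of_le_kk (n := n) (k := k + 1) (by omega) (by omega)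
  omega

theorem kk_lt {n : ℕ} (h : n ≠ 0) : kk n < n :=
  (Nat.log_le_self 2 _).trans_lt (Nat.log_lt_self 2 h)

theorem iter_kk_le (n i : ℕ) : kk^[i] n ≤ n - i := by
  induction i with
  | zero => simp
  | succ i ih =>
    rw [iterate_succ_apply']
    by_cases h : kk^[i] n = 0
    · simp [h, kk]
    · have := kk_lt h; omega

theorem iter_kk_mono (i : ℕ) {a b : ℕ} (h : a ≤ b) : kk^[i] a ≤ kk^[i] b :=
  Monotone.iterate (f := kk) (fun _ _ h => kk_mono h) i h

theorem iter_kk_ex (i n : ℕ) : kk^[i] (ex^[i] n) = n :=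
  LeftInverse.iterate kk_ex i n

theorem lg_eq (n : ℕ) : lg n = n.size - 1 := by
  rcases Nat.eq_zero_or_pos n with rfl | h
  · simp
  · have h1 : n < 2 ^ n.size := Nat.lt_size_self n
    have h2 : 0 < n.size := Nat.size_pos.2 h
    have h3 : 2 ^ (n.size - 1) ≤ n := Nat.lt_size.1 (by omega)
    exact Nat.log_eq_of_pow_le_of_lt_pow h3 (by rwa [Nat.sub_add_cancel h2])

section

variable {α : Type} [N487b59b3 α]

@[fun_prop] theorem pt_lg {n : α → ℕ} (hn : PT n) : PT fun a => Nat.log 2 (n a) :=
  (show PT fun a => (n a).size - 1 by fun_prop).congr fun a => lg_eq _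

@[fun_prop] theorem small_lg {n : α → ℕ} (hn : PT n) : Small fun a => Nat.log 2 (n a) :=
  (Small.size hn).mono fun a => by have := lg_eq (n a); simp only [lg] at this; omega

@[fun_prop] theorem pt_kk {n : α → ℕ} (hn : PT n) : PT fun a => kk (n a) := by
  unfold kk; fun_prop

theorem small_two_pow_lg {n : α → ℕ} (hn : Small n) : Small fun a => 2 ^ lg (n a) :=
  (hn.add (Small.const 1)).mono fun a => by
    rcases Nat.eq_zero_or_pos (n a) with h | h
    · simp [h]
    · exact (Nat.pow_log_le_self 2 h.ne').trans (by omega)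

/-- The scale, cut off at `s`. -/
def cex (s k : ℕ) : ℕ := min s (ex k)

theorem cex_eq (s k : ℕ) : cex s k = min s (2 ^ 2 ^ min k (lg (lg s) + 1)) := by
  rcases le_total k (lg (lg s) + 1) with h | h
  · rw [min_eq_left h]; rfl
  · have h1 := lt_ex_kk s
    have h2 := ex_mono h
    rw [min_eq_right h, cex, min_eq_left (h1.le.trans h2)]
    exact (min_eq_left h1.le).symm

@[fun_prop] theorem pt_cex {s k : α → ℕ} (hs : PT s) (hk : PT k) : PT fun a => cex (s a) (k a) := by
  have h1 : Small fun a => min (k a) (lg (lg (s a)) + 1) := by fun_prop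
  have h2 : Small fun a => 2 ^ min (k a) (lg (lg (s a)) + 1) :=
    ((small_two_pow_lg (small_lg hs)).mul (Small.const 2)).mono fun a => by
      rw [← pow_succ]; exact Nat.pow_le_pow_right (by omega) (min_le_right _ _)
  have h3 : PT fun a => 2 ^ min (k a) (lg (lg (s a)) + 1) :=
    PT.pow (PT.const 2) (by fun_prop) h1
  exact (PT.min hs (PT.pow (PT.const 2) h3 h2)).congr fun a => cex_eq _ _

@[fun_prop] theorem small_cex {s k : α → ℕ} (hs : Small s) : Small fun a => cex (s a) (k a) :=
  hs.mono fun _ => min_le_left _ _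

theorem ptp_le_ex {s k : α → ℕ} (hs : PT s) (hk : PT k) : PTP fun a => s a ≤ ex (k a) :=
  (show PTP fun a => cex (s a) (k a) = s a by fun_prop).congr fun a => by simp [cex]

theorem ptp_ex_le {s k : α → ℕ} (hs : PT s) (hk : PT k) : PTP fun a => ex (k a) ≤ s a :=
  (ptp_le_ex (s := fun a => s a + 1) (by fun_prop) hk).not.congr fun a => by omega

/-- A list of all strings of length at most `N`. -/
def upTo (N : ℕ) : List Str := (List.range (N + 1)).flatMap fun i => (allStr N).map (List.take i)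

theorem mem_upTo {N : ℕ} {x : Str} : x ∈ upTo N ↔ x.length ≤ N := by
  simp only [upTo, List.mem_flatMap, List.mem_range, List.mem_map, mem_allStr]
  constructor
  · rintro ⟨i, _, y, hy, rfl⟩
    simp [hy]
  · intro h
    exact ⟨x.length, by omega, x ++ List.replicate (N - x.length) true, by simp; omega, by simp⟩

theorem length_upTo (N : ℕ) : (upTo N).length = (N + 1) * 2 ^ N := by
  simp [upTo, List.length_flatMap, length_allStr]

theorem pt_upTo {n : α → ℕ} (hn : PT n) (hs : Small n) : PT fun a => upTo (lg (n a)) := by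
  have h1 : PT fun a => allStr (lg (n a)) := PT.allStr (pt_lg hn) (small_two_pow_lg hs)
  exact PT.flatMap (f := fun a i => (allStr (lg (n a))).map (List.take i)) (by fun_prop)
    (PT.map (f := fun (p : α × ℕ) x => List.take p.2 x) (h1.comp (by fun_prop)) (by fun_prop))

/-- Machine `j` is admitted at length `n`. -/
def adm (j : Str) (n : ℕ) : Prop := kk^[4 ^ j.length] n ≠ 0

theorem adm.mono {j : Str} {a b : ℕ} (h : adm j a) (hab : a ≤ b) : adm j b := by
  have := iter_kk_mono (4 ^ j.length) hab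
  unfold adm at h ⊢
  omega

theorem adm.lt {j : Str} {n : ℕ} (h : adm j n) : 4 ^ j.length < n := by
  have := iter_kk_le n (4 ^ j.length)
  unfold adm at h
  omega

theorem adm.lt_add {j : Str} {i n : ℕ} (h : adm j (ex^[i] n)) : 4 ^ j.length < i + n := by
  by_contra hn
  obtain ⟨d, hd⟩ : ∃ d, 4 ^ j.length = d + i := ⟨4 ^ j.length - i, by omega⟩
  have := iter_kk_le n d
  rw [adm, hd, iterate_add_apply, iter_kk_ex] at h
  omega

theorem adm.le_lg {j : Str} {n : ℕ} (h : adm j n) : j.length ≤ lg n :=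
  Nat.le_log_of_pow_le (by omega) ((Nat.pow_le_pow_left (by omega) _).trans h.lt.le)

theorem exists_adm (j : Str) : ∃ n, adm j n :=
  ⟨ex^[4 ^ j.length] 1, by rw [adm, iter_kk_ex]; omega⟩

theorem ptp_adm {j : α → Str} {n : α → ℕ} (hj : PT j) (hn : PT n) (hs : Small n) :
    PTP fun a => adm (j a) (n a) := by
  have h1 : PT fun a => kk^[min (4 ^ (j a).length) (n a)] (n a) :=
    PT.iterate_nat_growth (F := fun _ m => kk m) (by fun_prop) hs.min hn (by fun_prop)
      (fun _ => 0) (Small.const 0) fun _ m => by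
        refine sz_mono ?_
        exact (Nat.log_le_self 2 _).trans (Nat.log_le_self 2 _)
  refine (PTP.ne h1 (PT.const 0)).congr fun a => ?_
  rcases le_total (4 ^ (j a).length) (n a) with h | h
  · rw [min_eq_left h]; rfl
  · have h2 := iter_kk_le (n a) (n a)
    have h3 := iter_kk_le (n a) (4 ^ (j a).length)
    rw [min_eq_right h, adm]
    omega

end

/-- The scale index of block `t`. -/
def blk (k₀ t : ℕ) : ℕ := ex^[2 * t] k₀

theorem blk_succ (k₀ t : ℕ) : blk k₀ (t + 1) = ex (ex (blk k₀ t)) := by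
  rw [blk, Nat.mul_succ, iterate_succ_apply', iterate_succ_apply', blk]

theorem blk_mono (k₀ : ℕ) : Monotone (blk k₀) := monotone_nat_of_le_succ fun t => by
  have h1 := lt_ex (blk k₀ t)
  have h2 := lt_ex (ex (blk k₀ t))
  rw [blk_succ]; omega

/-- Some block is clean for finitely many languages at once. -/
theorem exists_clean (I k₀ : ℕ) (P : ℕ → Str → ℕ → Prop)
    (hP : ∀ i j a b, a ≤ b → P i j a → P i j b) :
    ∃ t, ∀ i < I, ∀ j, adm j (ex (blk k₀ (t + 1))) → P i j (ex (blk k₀ (t + 1))) →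
      P i j (ex (blk k₀ t)) := by
  classical
  by_contra hc
  push Not at hc
  choose i hi j h1 h2 h3 using hc
  set H := 2 * I + 2 + k₀ with hH
  have hH1 : k₀ + 1 < 4 ^ H :=
    lt_of_lt_of_le (by omega) ((Nat.lt_pow_self (a := 4) (n := H) (by omega)).le)
  have hlen : ∀ t < 4 ^ H, (j t).length ≤ H := by
    intro t ht
    have e : ex (blk k₀ (t + 1)) = ex^[2 * (t + 1) + 1] k₀ := by rw [iterate_succ_apply', blk]
    have h4 := h1 t
    rw [e] at h4
    have h5 := h4.lt_add
    have h6 : 4 ^ (j t).length < 4 ^ (H + 1) := by rw [pow_succ]; omega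
    have := (Nat.pow_lt_pow_iff_right (by omega)).1 h6
    omega
  have hinj : ∀ s t, s < t → (i s, j s) ≠ (i t, j t) := by
    intro s t hst e
    obtain ⟨e1, e2⟩ := Prod.mk.inj e
    refine h3 t (hP _ _ _ _ (ex_mono (blk_mono k₀ (show s + 1 ≤ t from hst))) ?_)
    rw [← e1, ← e2]
    exact h2 s
  have hcard := Finset.card_le_card_of_injOn (s := Finset.range (4 ^ H))
    (t := Finset.range I ×ˢ (upTo H).toFinset) (fun t => (i t, j t))
    (fun t ht => by
      simp only [Finset.coe_range, Set.mem_Iio] at ht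
      simp [hi t, mem_upTo, hlen t ht])
    (fun s _ t _ e => by
      rcases lt_trichotomy s t with h | h | h
      · exact absurd e (hinj s t h)
      · exact h
      · exact absurd e.symm (hinj t s h))
  rw [Finset.card_product, Finset.card_range, Finset.card_range] at hcard
  have h7 := List.toFinset_card_le (upTo H)
  rw [length_upTo] at h7
  have h8 : I * (H + 1) < 2 ^ H := by
    have a1 : I + 1 ≤ 2 ^ I := Nat.lt_two_pow_self
    have a2 : k₀ + 1 ≤ 2 ^ k₀ := Nat.lt_two_pow_self
    have a3 : 2 ^ H = 2 ^ I * 2 ^ I * 4 * 2 ^ k₀ := by rw [hH]; ring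
    have a4 : (I + 1) * (I + 1) * 4 * (k₀ + 1) ≤ 2 ^ I * 2 ^ I * 4 * 2 ^ k₀ := by gcongr
    rw [a3, hH]
    nlinarith [Nat.zero_le (I * I * k₀), Nat.zero_le (I * k₀), Nat.zero_le (I * I)]
  have h9 : 4 ^ H = 2 ^ H * 2 ^ H := by rw [← mul_pow]; rfl
  have h10 : I * ((H + 1) * 2 ^ H) < 2 ^ H * 2 ^ H := by
    rw [← Nat.mul_assoc]
    exact Nat.mul_lt_mul_of_pos_right h8 (by positivity)
  have h11 : I * (upTo H).toFinset.card ≤ I * ((H + 1) * 2 ^ H) := Nat.mul_le_mul_left _ h7
  omega

/-- Admissible address rows. -/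
def Row (r m : ℕ) (a : List Str) : Prop := a.length = r ∧ ∀ u ∈ a, u.length ≤ m

/-- The layering lemma. -/
theorem layering (r m : ℕ) (η : List Str → ℕ → Prop)
    (hF : ∀ a, Row r m a → (∀ k < r, (a.getD k []).length < m → ∀ b : Bool, ∃ a', Row r m a' ∧
      a'.getD k [] = a.getD k [] ++ [b] ∧ a'.drop (k + 1) = a.drop (k + 1) ∧ η a' k) →
      ∃ k < r, η a k) :
    ∃ a k, Row r m a ∧ k < r ∧ a.getD k [] = [] ∧ η a k := by
  by_contra hc
  have claim : ∀ e ≤ r, ∀ a, Row r m a →
      (∀ k < r, e ≤ k → (a.getD k []).length < m → ∀ b : Bool, ∃ a', Row r m a' ∧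
        a'.getD k [] = a.getD k [] ++ [b] ∧ a'.drop (k + 1) = a.drop (k + 1) ∧ η a' k) →
      ∃ k < r, e ≤ k ∧ ∃ a', Row r m a' ∧ a'.drop k = a.drop k ∧ η a' k := by
    intro e
    induction e with
    | zero =>
      intro _ a ha h
      obtain ⟨k, hk, h⟩ := hF a ha fun k hk => h k hk (Nat.zero_le _)
      exact ⟨k, hk, Nat.zero_le _, a, ha, rfl, h⟩
    | succ e ih =>
      intro he a ha h
      by_contra hn
      have hset : ∀ u : Str, u.length ≤ m → Row r m (a.set e u) := fun u hu =>
        ⟨by rw [List.length_set, ha.1], fun v hv => by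
          rcases List.mem_or_eq_of_mem_set hv with h | rfl
          · exact ha.2 v h
          · exact hu⟩
      have hget : ∀ u : Str, (a.set e u).getD e [] = u := fun u => by
        rw [List.getD_eq_getElem _ _ (by rw [List.length_set, ha.1]; omega), List.getElem_set_self]
      have hdrop : ∀ (u : Str) k, e < k → (a.set e u).drop k = a.drop k := fun u k hk =>
        List.drop_set_of_lt hk
      have hgd : ∀ (a' a'' : List Str) k, a'.drop k = a''.drop k →
          a'.getD k [] = a''.getD k [] ∧ a'.drop (k + 1) = a''.drop (k + 1) := by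
        intro a' a'' k e
        refine ⟨?_, by rw [← List.drop_drop, ← List.drop_drop, e]⟩
        rw [List.getD_eq_getElem?_getD, List.getD_eq_getElem?_getD, ← List.head?_drop,
          ← List.head?_drop, e]
      have inner : ∀ n (u : Str), u.length + n = m → ∃ a', Row r m a' ∧ a'.getD e [] = u ∧
          a'.drop (e + 1) = a.drop (e + 1) ∧ η a' e := by
        intro n
        induction n using Nat.strong_induction_on with
        | _ n ihn =>
          intro u hu
          obtain ⟨k, hk, hek, a', h1, h2, h3⟩ := ih (by omega) (a.set e u) (hset u (by omega)) (by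
            intro k hk hek hl b
            rcases hek.eq_or_lt with rfl | hek
            · rw [hget] at hl ⊢
              rw [hdrop u _ (by omega)]
              exact ihn (n - 1) (by omega) (u ++ [b]) (by simp; omega)
            · have e1 := hgd _ _ k (hdrop u k hek)
              rw [e1.1] at hl ⊢
              rw [e1.2]
              exact h k hk hek hl b)
          rcases hek.eq_or_lt with rfl | hek
          · have e1 := hgd _ _ _ h2
            exact ⟨a', h1, by rw [e1.1, hget], by rw [e1.2, hdrop u _ (by omega)], h3⟩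
          · exact absurd ⟨k, hk, hek, a', h1, by rw [h2, hdrop u k hek], h3⟩ hn
      obtain ⟨a', h1, h2, -, h3⟩ := inner m [] (by simp)
      exact hc ⟨a', e, h1, by omega, h2, h3⟩
  obtain ⟨k, h1, h2, -⟩ := claim r le_rfl (List.replicate r [])
    ⟨by simp, fun u hu => by simp [List.eq_of_mem_replicate hu]⟩ fun k h1 h2 => by omega
  omega

end Pool.Agent.P.MP_435dae_lc.Opt
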