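import Pool.Agent.Lib.PolyTime.Parse
import Pool.Agent.P.MP_435dae_lc.OptDefs

/-! Closure properties of oracle polynomial time, and a clocked universal oracle machine. -/

namespace Pool.Agent.P.MP_435dae_lc.Opt

open Function N487b59b3 N68a2faeb Pool.Agent.Lib.PolyTime

section

variable {α : Type} {O : Str → Bool} {q : α × Str → Str} {a : α}

theorem length_oans (j : ℕ) : (oans O q a j).length = j := by
  induction j with
  | zero => rfl
  | succ j ih => simp [oans, ih]

theorem take_oans {i j : ℕ} (h : i ≤ j) : (oans O q a j).take i = oans O q a i := by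
  induction j, h using Nat.le_induction with
  | base => exact List.take_of_length_le (length_oans i).le
  | succ j h ih => rw [oans, List.take_append_of_le_length (by rwa [length_oans]), ih]

theorem oans_congr {β : Type} {q' : β × Str → Str} {b : β} (j : ℕ)
    (h : ∀ l : Str, l.length < j → q (a, l) = q' (b, l)) : oans O q a j = oans O q' b j := by
  induction j with
  | zero => rfl
  | succ j ih =>
    rw [oans, oans, ih fun l hl => h l (by omega), h _ (by rw [length_oans]; omega)]

end

variable {α β γ : Type} [N487b59b3 α] [N487b59b3 β] [N487b59b3 γ] {O : Str → Bool}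

/-- A flexible form of `PolyTimeIn`. -/
def Flex (O : Str → Bool) (f : α → β) : Prop :=
  ∃ (q : α × Str → Str) (o : α × Str → β) (n : α → ℕ), PT q ∧ PT o ∧ Small n ∧
    ∀ a m, n a ≤ m → f a = o (a, oans O q a m)

theorem Flex.of_polyTimeIn {f : α → β} (h : PolyTimeIn O f) : Flex O f := by
  obtain ⟨q, o, p, hq, ho, h⟩ := h
  have h1 := PT.of_isPolyTime hq
  have h2 := PT.of_isPolyTime ho
  refine ⟨q, fun x => o (x.1, x.2.take (p.eval (sz x.1))), fun a => p.eval (sz a), h1,
    by fun_prop, by fun_prop, fun a m hm => ?_⟩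
  dsimp only
  rw [take_oans hm]
  exact h a

theorem Flex.polyTimeIn {f : α → β} (h : Flex O f) : PolyTimeIn O f := by
  obtain ⟨q, o, n, hq, ho, ⟨p, hp⟩, h⟩ := h
  exact ⟨q, o, p, hq.isPolyTime, ho.isPolyTime, fun a => h a _ (hp a)⟩

theorem Flex.of_pt {f : α → β} (h : PT f) : Flex O f :=
  ⟨fun _ => [], fun x => f x.1, fun _ => 0, PT.const _, by fun_prop, Small.const 0,
    fun _ _ _ => rfl⟩

theorem Flex.comp {f : β → γ} {g : α → β} (hf : Flex O f) (hg : PT g) :
    Flex O fun a => f (g a) := by
  obtain ⟨q, o, n, hq, ho, hn, h⟩ := hf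
  refine ⟨fun x => q (g x.1, x.2), fun x => o (g x.1, x.2), fun a => n (g a), by fun_prop,
    by fun_prop, hn.comp hg, fun a m hm => ?_⟩
  dsimp only
  rw [h _ m hm]
  exact congrArg (fun l => o (g a, l)) (oans_congr m fun _ _ => rfl)

theorem Flex.post {f : α → β} {g : α × β → γ} (hf : Flex O f) (hg : PT g) :
    Flex O fun a => g (a, f a) := by
  obtain ⟨q, o, n, hq, ho, hn, h⟩ := hf
  refine ⟨q, fun x => g (x.1, o x), n, hq, by fun_prop, hn, fun a m hm => ?_⟩
  dsimp only
  rw [← h a m hm]

theorem Flex.cond {c : α → Bool} {f g : α → β} (hc : PT c) (hf : Flex O f) (hg : Flex O g) :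
    Flex O fun a => bif c a then f a else g a := by
  obtain ⟨q, o, n, hq, ho, hn, h⟩ := hf
  obtain ⟨q', o', n', hq', ho', hn', h'⟩ := hg
  refine ⟨fun x => bif c x.1 then q x else q' x, fun x => bif c x.1 then o x else o' x,
    fun a => n a + n' a, by fun_prop, by fun_prop, hn.add hn', fun a m hm => ?_⟩
  dsimp only at hm ⊢
  rcases Bool.eq_false_or_eq_true (c a) with e | e
  · simp only [e, cond_true]
    rw [h a m (by omega)]
    exact congrArg (fun l => o (a, l)) (oans_congr m fun _ _ => by simp only [e, cond_true])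
  · simp only [e, cond_false]
    rw [h' a m (by omega)]
    exact congrArg (fun l => o' (a, l)) (oans_congr m fun _ _ => by simp only [e, cond_false])

theorem Flex.map [Inhabited β] {l : α → List β} {f : α × β → γ} (hl : PT l) (hf : Flex O f) :
    Flex O fun a => (l a).map fun x => f (a, x) := by
  obtain ⟨q, o, n, hq, ho, ⟨p, hp⟩, h⟩ := hf
  have hN : PT fun a : α => p.eval (2 * sz a + 1 + sz (l a)) + 1 := by fun_prop
  have hNs : Small fun a : α => p.eval (2 * sz a + 1 + sz (l a)) + 1 := by fun_prop
  set N : α → ℕ := fun a : α => p.eval (2 * sz a + 1 + sz (l a)) + 1 with hNd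
  have hN0 : ∀ a, 0 < N a := fun a => Nat.succ_pos _
  have hb : ∀ a, ∀ x ∈ l a, n (a, x) ≤ N a := fun a x hx => by
    have h1 := hp (a, x)
    have h2 := sz_le_of_mem hx
    have h3 : p.eval (sz (a, x)) ≤ p.eval (2 * sz a + 1 + sz (l a)) :=
      eval_mono p (by rw [sz_pair]; omega)
    simp only [hNd]
    omega
  clear_value N
  let Q : α × Str → Str := fun x =>
    q ((x.1, (l x.1).getD (x.2.length / N x.1) default), x.2.drop (x.2.length / N x.1 * N x.1))
  have key : ∀ a i t, t ≤ N a →
      (oans O Q a (i * N a + t)).drop (i * N a) = oans O q (a, (l a).getD i default) t := by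
    intro a i t
    induction t with
    | zero => intro _; exact List.drop_of_length_le (by rw [length_oans]; omega)
    | succ t ih =>
      intro ht
      have e : (i * N a + t) / N a = i := by
        rw [Nat.add_comm, Nat.add_mul_div_right _ _ (hN0 a), Nat.div_eq_of_lt (by omega),
          Nat.zero_add]
      rw [← Nat.add_assoc, oans, oans, List.drop_append_of_le_length (by rw [length_oans]; omega),
        ih (by omega)]
      congr 3
      simp only [Q, length_oans, e]
      rw [ih (by omega)]
  refine ⟨Q, fun x => (List.range (l x.1).length).map fun i =>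
      o ((x.1, (l x.1).getD i default), (x.2.drop (i * N x.1)).take (N x.1)),
    fun a => (l a).length * N a, by simp only [Q]; fun_prop, ?_, by fun_prop, fun a m hm => ?_⟩
  · exact PT.map (f := fun (x : α × Str) i =>
      o ((x.1, (l x.1).getD i default), (x.2.drop (i * N x.1)).take (N x.1)))
      (by fun_prop) (by fun_prop)
  · dsimp only at hm ⊢
    apply List.ext_getElem (by simp)
    intro i h1 h2
    rw [List.length_map] at h1
    have h3 : i * N a + N a ≤ m := by nlinarith
    rw [List.getElem_map, List.getElem_map, List.getElem_range, List.take_drop, take_oans h3,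
      key a i _ le_rfl, List.getD_eq_getElem _ _ h1]
    exact h _ _ (hb a _ (List.getElem_mem h1))

/-- The predicate `p` is decided in polynomial time with oracle `O`. -/
@[fun_prop]
def Dec (O : Str → Bool) (p : α → Prop) : Prop :=
  ∃ b : α → Bool, Flex O b ∧ ∀ a, b a = true ↔ p a

namespace Dec

variable {p r : α → Prop}

theorem of_ptp (h : PTP p) : Dec O p := by
  obtain ⟨b, hb, h⟩ := h
  exact ⟨b, Flex.of_pt hb, h⟩

theorem congr (hp : Dec O p) (h : ∀ a, r a ↔ p a) : Dec O r := by
  obtain ⟨b, hb, e⟩ := hp
  exact ⟨b, hb, fun a => (e a).trans (h a).symm⟩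

theorem comp {p : β → Prop} {g : α → β} (hp : Dec O p) (hg : PT g) : Dec O fun a => p (g a) := by
  obtain ⟨b, hb, e⟩ := hp
  exact ⟨_, hb.comp hg, fun a => e _⟩

theorem not (hp : Dec O p) : Dec O fun a => ¬p a := by
  obtain ⟨b, hb, e⟩ := hp
  exact ⟨_, hb.post (g := fun x => !x.2) (by fun_prop), fun a => by simp [← e]⟩

theorem forall_mem [Inhabited β] {l : α → List β} {p : α → β → Prop} (hl : PT l)
    (hp : Dec O fun x : α × β => p x.1 x.2) : Dec O fun a => ∀ x ∈ l a, p a x := by
  obtain ⟨b, hb, e⟩ := hp
  refine ⟨_, (hb.map hl).post (g := fun x => x.2.all fun c => c) ?_, fun a => by simp [e]⟩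
  exact PT.all (f := fun _ c => c) (by fun_prop) (by fun_prop)

theorem exists_mem [Inhabited β] {l : α → List β} {p : α → β → Prop} (hl : PT l)
    (hp : Dec O fun x : α × β => p x.1 x.2) : Dec O fun a => ∃ x ∈ l a, p a x :=
  (forall_mem (p := fun a x => ¬p a x) hl hp.not).not.congr fun a => by simp

theorem and (hp : Dec O p) (hr : Dec O r) : Dec O fun a => p a ∧ r a := by
  obtain ⟨b, hb, e⟩ := hp
  obtain ⟨c, hc, e'⟩ := hr
  have h : Dec O fun x : α × Bool => (bif x.2 then b x.1 else c x.1) = true :=
    ⟨_, Flex.cond (by fun_prop) (hb.comp (by fun_prop)) (hc.comp (by fun_prop)), fun _ => Iff.rfl⟩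
  exact (forall_mem (p := fun a (x : Bool) => (bif x then b a else c a) = true)
    (PT.const [true, false]) h).congr fun a => by simp [e, e', and_comm]

theorem or (hp : Dec O p) (hr : Dec O r) : Dec O fun a => p a ∨ r a :=
  (hp.not.and hr.not).not.congr fun a => by tauto

theorem imp (hp : Dec O p) (hr : Dec O r) : Dec O fun a => p a → r a :=
  (hp.not.or hr).congr fun a => by tauto

theorem ite_polyTimeIn {inst : ∀ a, Decidable (p a)} {f g : α → β} (hp : Dec O p) (hf : PT f)
    (hg : PT g) : PolyTimeIn O fun a => if p a then f a else g a := by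
  obtain ⟨b, hb, e⟩ := hp
  have h := (hb.post (g := fun x => bif x.2 then f x.1 else g x.1) (by fun_prop)).polyTimeIn
  convert h using 2 with a
  by_cases ha : p a
  · simp [ha, (e a).2 ha]
  · have : b a = false := by simpa [← e] using ha
    simp [ha, this]

end Dec

/-- Field `i` of a string. -/
def fld (i : ℕ) (z : Str) : Str := (blocks z).getD i []

@[fun_prop] theorem pt_fld {i : α → ℕ} {z : α → Str} (hi : PT i) (hz : PT z) :
    PT fun a => fld (i a) (z a) := by
  unfold fld; fun_prop

/-- The string with the given fields. -/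
def tup (l : List Str) : Str := (l.map delimit).flatten

theorem blocks_tup (l : List Str) : blocks (tup l) = l := by
  have : ∀ acc : List Str, (tup l).foldl blockStep (false, [], acc) = (false, [], acc ++ l) := by
    induction l with
    | nil => simp [tup]
    | cons a l ih =>
      intro acc
      have e : tup (a :: l) = delimit a ++ tup l := rfl
      rw [e, foldl_blockStep_delimit, ih]; simp
  simp [blocks, this]

theorem fld_tup (i : ℕ) (l : List Str) : fld i (tup l) = l.getD i [] := by rw [fld, blocks_tup]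

@[simp] theorem length_tup_nil : (tup []).length = 0 := rfl

@[simp] theorem length_tup_cons (a : Str) (l : List Str) :
    (tup (a :: l)).length = 2 * a.length + 1 + (tup l).length := by
  have e : tup (a :: l) = delimit a ++ tup l := rfl
  rw [e, List.length_append, length_delimit]

theorem length_tup_le {l : List Str} {B : ℕ} (h : ∀ x ∈ l, x.length ≤ B) :
    (tup l).length ≤ l.length * (2 * B + 1) := by
  induction l with
  | nil => simp
  | cons x l ih =>
    have h1 := ih fun y hy => h y (by simp [hy])
    have h2 := h x (by simp)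
    simp; nlinarith

theorem length_le_of_mem_blocks {z x : Str} (h : x ∈ blocks z) : x.length ≤ z.length := by
  have key : ∀ (z : Str) (s : Bool × Str × List Str) (n : ℕ), s.2.1.length ≤ n →
      (∀ y ∈ s.2.2, y.length ≤ n) → ∀ y ∈ (z.foldl blockStep s).2.2, y.length ≤ n + z.length := by
    intro z
    induction z with
    | nil => intro s n _ h y hy; exact h y hy
    | cons b z ih =>
      rintro ⟨c, cur, acc⟩ n h1 h2 y hy
      dsimp only at h1 h2
      have := ih (blockStep (c, cur, acc) b) (n + 1) ?_ ?_ y hy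
      · simp only [List.length_cons]; omega
      · cases c <;> cases b <;> simp [blockStep] <;> omega
      · intro y hy
        cases c <;> cases b <;> simp [blockStep] at hy
        · rcases hy with hy | rfl
          · exact (h2 y hy).trans (by omega)
          · omega
        all_goals exact (h2 y hy).trans (by omega)
  simpa using key z (false, [], []) 0 (by simp) (by simp) x h

theorem length_fld_le (i : ℕ) (z : Str) : (fld i z).length ≤ z.length := by
  rw [fld, List.getD_eq_getElem?_getD]
  rcases h : (blocks z)[i]? with _ | x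
  · simp
  · exact length_le_of_mem_blocks (List.mem_of_getElem? h)

/-- The query map of machine `j` with clock `T`. -/
def mq (x : (Str × Str × ℕ) × Str) : Str :=
  decStr (urun (decCode (fld 0 x.1.1)) (bitEncode (x.1.2.1, x.2)) x.1.2.2)

/-- The output of machine `j` on `w` with `n` queries and clock `T`. -/
def mrun (O : Str → Bool) (j w : Str) (n T : ℕ) : Str :=
  decStr (urun (decCode (fld 1 j)) (bitEncode (w, oans O mq (j, w, T) n)) T)

/-- Machine `j` outputs `x` on `w`, and its clock is at most `s`. -/
def Out (O : Str → Bool) (j w : Str) (s : ℕ) (x : Str) : Prop :=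
  (w.length + 2) ^ (fld 2 j).length ≤ s ∧ (w.length + 2) ^ (fld 3 j).length ≤ s ∧
    mrun O j w ((w.length + 2) ^ (fld 2 j).length) ((w.length + 2) ^ (fld 3 j).length) = x

theorem Out.mono {j w x : Str} {s t : ℕ} (h : Out O j w s x) (hs : s ≤ t) : Out O j w t x :=
  ⟨h.1.trans hs, h.2.1.trans hs, h.2.2⟩

theorem flex_mrun {j w : α → Str} {n T : α → ℕ} (hj : PT j) (hw : PT w) (hn : PT n) (hT : PT T)
    (hn' : Small n) (hT' : Small T) : Flex O fun a => mrun O (j a) (w a) (n a) (T a) := by
  refine ⟨fun x => decStr (urun (decCode (fld 0 (j x.1))) (bitEncode (w x.1, x.2)) (T x.1)),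
    fun x => decStr (urun (decCode (fld 1 (j x.1))) (bitEncode (w x.1, x.2.take (n x.1))) (T x.1)),
    n, by fun_prop, by fun_prop, hn', fun a m hm => ?_⟩
  dsimp only
  rw [take_oans hm, mrun]
  exact congrArg (fun l => decStr (urun (decCode (fld 1 (j a))) (bitEncode (w a, l)) (T a)))
    (oans_congr _ fun _ _ => rfl)

theorem dec_out {j w x : α → Str} {s : α → ℕ} (hj : PT j) (hw : PT w) (hx : PT x) (hs : PT s)
    (hs' : Small s) : Dec O fun a => Out O (j a) (w a) (s a) (x a) := by
  have h1 : Flex O fun a => mrun O (j a) (w a)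
      (min (((w a).length + 2) ^ (fld 2 (j a)).length) (s a))
      (min (((w a).length + 2) ^ (fld 3 (j a)).length) (s a)) :=
    flex_mrun hj hw (by fun_prop) (by fun_prop) hs'.min hs'.min
  have h2 : Dec O fun a => mrun O (j a) (w a)
      (min (((w a).length + 2) ^ (fld 2 (j a)).length) (s a))
      (min (((w a).length + 2) ^ (fld 3 (j a)).length) (s a)) = x a :=
    ⟨_, h1.post (g := fun y => y.2 == x y.1) (by fun_prop), fun a => by simp⟩
  have h3 : PTP fun a => ((w a).length + 2) ^ (fld 2 (j a)).length ≤ s a := by fun_prop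
  have h4 : PTP fun a => ((w a).length + 2) ^ (fld 3 (j a)).length ≤ s a := by fun_prop
  refine ((Dec.of_ptp h3).and ((Dec.of_ptp h4).and h2)).congr fun a => ?_
  refine and_congr_right fun e1 => and_congr_right fun e2 => ?_
  rw [min_eq_left e1, min_eq_left e2]

theorem poly_le_pow (p : Polynomial ℕ) : ∃ c, ∀ n, p.eval n ≤ (n + 2) ^ c := by
  induction p using Polynomial.induction_on' with
  | add p q hp hq =>
    obtain ⟨a, ha⟩ := hp
    obtain ⟨b, hb⟩ := hq
    refine ⟨a + b + 1, fun n => ?_⟩
    have h1 : (n + 2) ^ a ≤ (n + 2) ^ (a + b) := Nat.pow_le_pow_right (by omega) (by omega)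
    have h2 : (n + 2) ^ b ≤ (n + 2) ^ (a + b) := Nat.pow_le_pow_right (by omega) (by omega)
    have := ha n
    have := hb n
    rw [Polynomial.eval_add, pow_succ]
    nlinarith
  | monomial k a =>
    refine ⟨a + k, fun n => ?_⟩
    rw [Polynomial.eval_monomial, pow_add]
    exact Nat.mul_le_mul (Nat.lt_two_pow_self.le.trans (Nat.pow_le_pow_left (by omega) _))
      (Nat.pow_le_pow_left (by omega) _)

theorem pb_le_pow {f : Str → ℕ} (h : Small f) : ∃ c, ∀ w, f w ≤ (w.length + 2) ^ c := by
  obtain ⟨p, hp⟩ := h
  obtain ⟨c, hc⟩ := poly_le_pow (p.comp (3 * Polynomial.X))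
  refine ⟨c, fun w => (hp w).trans ?_⟩
  simpa [Polynomial.eval_comp, sz_str] using hc w.length

/-- Universality. -/
theorem exists_machine {f : Str → Str} (h : PolyTimeIn O f) : ∃ (j : Str) (K : ℕ),
    (∀ w s x, Out O j w s x → x = f w) ∧ ∀ w s, (w.length + 2) ^ K ≤ s → Out O j w s (f w) := by
  obtain ⟨q, o, n, hq, ho, hn, h⟩ := Flex.of_polyTimeIn h
  obtain ⟨e, p, he⟩ := exists_code hq.isPolyTime
  obtain ⟨e', p', he'⟩ := exists_code ho.isPolyTime
  obtain ⟨c, hc⟩ := pb_le_pow hn
  obtain ⟨d, hd⟩ := pb_le_pow (f := fun w : Str =>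
    (p + p').eval (2 * sz w + 1 + 3 * (w.length + 2) ^ c)) (by fun_prop)
  let j := tup [bitEncode e, bitEncode e', List.replicate c true, List.replicate d true]
  have j0 : decCode (fld 0 j) = e := by simp [j, fld_tup, decCode_enc]
  have j1 : decCode (fld 1 j) = e' := by simp [j, fld_tup, decCode_enc]
  have j2 : (fld 2 j).length = c := by simp [j, fld_tup]
  have j3 : (fld 3 j).length = d := by simp [j, fld_tup]
  have key : ∀ w : Str, mrun O j w ((w.length + 2) ^ c) ((w.length + 2) ^ d) = f w := by
    intro w
    have b : ∀ l : Str, l.length ≤ (w.length + 2) ^ c →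
        p.eval (sz (w, l)) ≤ (w.length + 2) ^ d ∧ p'.eval (sz (w, l)) ≤ (w.length + 2) ^ d := by
      intro l hl
      have h1 : sz (w, l) ≤ 2 * sz w + 1 + 3 * (w.length + 2) ^ c := by
        rw [sz_pair, sz_str l]; omega
      have h2 := eval_mono p h1
      have h3 := eval_mono p' h1
      have h4 := hd w
      rw [Polynomial.eval_add] at h4
      omega
    have e1 : oans O mq (j, w, (w.length + 2) ^ d) ((w.length + 2) ^ c) =
        oans O q w ((w.length + 2) ^ c) := by
      refine oans_congr _ fun l hl => ?_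
      simp only [mq]
      rw [j0, he (w, l) _ (b l hl.le).1, decStr_enc]
    rw [mrun, e1, j1, he' (w, _) _ (b _ (length_oans _).le).2, decStr_enc]
    exact (h w _ (hc w)).symm
  refine ⟨j, c + d, fun w s x hx => ?_, fun w s hs => ?_⟩
  · rw [← hx.2.2, j2, j3, key]
  · refine ⟨?_, ?_, ?_⟩
    · rw [j2]; exact (Nat.pow_le_pow_right (by omega) (by omega)).trans hs
    · rw [j3]; exact (Nat.pow_le_pow_right (by omega) (by omega)).trans hs
    · rw [j2, j3, key]

end Pool.Agent.P.MP_435dae_lc.Opt
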