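import Pool.Agent.P.MP_435dae_lc.OptLang

/-! The checks used by the tree language and by the paradox languages. -/

namespace Pool.Agent.P.MP_435dae_lc.Opt

open Function N487b59b3 N68a2faeb Pool.Agent.Lib.PolyTime

/-- The parent of a string. -/
def par (z : Str) : Str := fld 1 z

/-- The level of the parent that a string serves. -/
def lam (z : Str) : ℕ := (fld 2 z).length

/-- The address row of a string. -/
def aa (z : Str) : List Str := blocks (fld 3 z)

/-- `z` is a child of `x`. -/
def Child (z x : Str) : Prop :=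
  par z = x ∧ PP z = (PP x).tail ∧ lam z ≤ tp x ∧ kk z.length = kk x.length + lam z + 1

/-- `y` lies `d` generations below `x`. -/
def Below (x : Str) : ℕ → Str → Prop
  | 0, y => y = x
  | d + 1, y => Child y (par y) ∧ Below x d (par y)

theorem Below.snoc {x z : Str} (hz : Child z x) : ∀ {d : ℕ} {y : Str}, Below z d y →
    Below x (d + 1) y
  | 0, y, h => by
    obtain rfl : y = z := h
    exact ⟨hz.1 ▸ hz, hz.1⟩
  | _ + 1, _, h => ⟨h.1, Below.snoc hz h.2⟩

theorem Below.iter {x : Str} : ∀ {d : ℕ} {y : Str}, Below x d y → par^[d] y = x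
  | 0, _, h => h
  | d + 1, y, h => Below.iter (d := d) (y := par y) h.2

theorem Below.split {x : Str} : ∀ {d : ℕ} {y : Str}, Below x (d + 1) y →
    Below (par^[d] y) d y ∧ Child (par^[d] y) x
  | 0, y, h => ⟨rfl, (show par y = x from h.2) ▸ h.1⟩
  | _ + 1, _, h => ⟨⟨h.1, (Below.split h.2).1⟩, (Below.split h.2).2⟩

theorem Below.kk_le {x : Str} : ∀ {d : ℕ} {y : Str}, Below x d y → kk x.length ≤ kk y.length
  | 0, _, h => by rw [show _ = x from h]
  | _ + 1, _, h => by
    have h1 := Below.kk_le h.2
    have h2 := h.1.2.2.2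
    omega

variable {α : Type} [N487b59b3 α]

@[fun_prop] theorem pt_par {z : α → Str} (hz : PT z) : PT fun a => par (z a) := by
  unfold par; fun_prop

@[fun_prop] theorem pt_lam {z : α → Str} (hz : PT z) : PT fun a => lam (z a) := by
  unfold lam; fun_prop

@[fun_prop] theorem pt_aa {z : α → Str} (hz : PT z) : PT fun a => aa (z a) := by
  unfold aa; fun_prop

theorem sz_par_le (z : Str) : sz (par z) ≤ sz z := by
  have := length_fld_le 1 z
  rw [sz_str, sz_str, par]
  omega

theorem pt_anc {z : α → Str} {d : α → ℕ} (hz : PT z) (hd : PT d) (hs : Small d) :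
    PT fun a => par^[d a] (z a) :=
  PT.iterate_nat_growth (F := fun _ y => par y) hd hs hz (by fun_prop) (fun _ => 0)
    (Small.const 0) fun _ y => sz_par_le y

open Classical in
/-- One step of the test for `Below`. -/
noncomputable def bstep (s : Str × Bool) : Str × Bool :=
  (par s.1, s.2 && decide (Child s.1 (par s.1)))

theorem bstep_iter (x : Str) (d : ℕ) : ∀ (y : Str) (b : Bool),
    bstep^[d] (y, b) = (x, true) ↔ b = true ∧ Below x d y := by
  induction d with
  | zero => intro y b; simp [Below, and_comm]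
  | succ d ih => intro y b; rw [iterate_succ_apply, bstep, ih]; simp [Below, and_assoc]

theorem ptp_below {x y : α → Str} {d : α → ℕ} (hx : PT x) (hy : PT y) (hd : PT d)
    (hs : Small d) : PTP fun a => Below (x a) (d a) (y a) := by
  have h0 : PT fun p : α × Str × Bool => bstep p.2 := by
    unfold bstep Child; fun_prop
  have h1 : PT fun a => bstep^[d a] (y a, true) :=
    PT.iterate_nat_growth (F := fun _ s => bstep s) hd hs (by fun_prop) h0 (fun _ => 0)
      (Small.const 0) fun _ s => by
        have := sz_par_le s.1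
        rw [bstep, sz_pair, sz_pair' s]
        simp only [sz_bool]
        omega
  exact (PTP.eq h1 (show PT fun a => (x a, true) by fun_prop)).congr fun a => by
    simp [bstep_iter]

variable (O : Str → Bool)

/-- No trusted machine outputs `x` on `u` within `m`. -/
def nu (x : Str) (m : ℕ) (u : Str) : Prop := ∀ j ∈ JJ x, ¬Out O j u m x

/-- The check of a paradox string of order `d`. -/
def RP (x : Str) (d l : ℕ) (w : Str) : Prop :=
  Below x (d + 1) (fld 0 w) ∧ lam (par^[d] (fld 0 w)) = l ∧
    (aa (par^[d] (fld 0 w))).getD (kk (fld 0 w).length) [] = [] ∧ Wit O w (tp (fld 0 w) - d)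

/-- One branch of the check of a tree string. -/
def RB (z : Str) (d k l : ℕ) (b : Bool) (ω : Str) : Prop :=
  kk (fld 0 ω).length = k ∧ Below (par z) (d + 1) (fld 0 ω) ∧ lam (par^[d] (fld 0 ω)) = lam z ∧
    (aa (par^[d] (fld 0 ω))).getD k [] = (aa z).getD k [] ++ [b] ∧
    (aa (par^[d] (fld 0 ω))).drop (k + 1) = (aa z).drop (k + 1) ∧ Wit O ω l

/-- The check of a tree string with ancestor `z`. -/
def RT (z : Str) (m d k l : ℕ) (w : Str) : Prop :=
  nu O (par z) m ((aa z).getD k []) ∧
    (((aa z).getD k []).length < m → RB O z d k l false (fld 0 w) ∧ RB O z d k l true (fld 1 w))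

/-- The check. -/
def RR (x : Str) (l : ℕ) (w : Str) : Prop :=
  ((PP x).length ≤ 1 ∧ RT O (par^[tp x - l] x)
    (cex x.length (kk (par (par^[tp x - l] x)).length + lam (par^[tp x - l] x))) (tp x - l)
    (kk x.length) l w) ∨ (1 < (PP x).length ∧ RP O x ((PP x).length - 2) l w)

variable {O}

theorem dec_RP {x w : α → Str} {d l : α → ℕ} (hx : PT x) (hw : PT w) (hd : PT d) (hs : Small d)
    (hl : PT l) : Dec O fun a => RP O (x a) (d a) (l a) (w a) := by
  have h : PT fun a => par^[d a] (fld 0 (w a)) := pt_anc (by fun_prop) hd hs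
  exact (Dec.of_ptp (ptp_below hx (by fun_prop) (by fun_prop) (by fun_prop))).and
    ((Dec.of_ptp (PTP.eq (pt_lam h) hl)).and
      ((Dec.of_ptp (PTP.eq (PT.getD (pt_aa h) (by fun_prop) (PT.const _)) (PT.const _))).and
        (dec_wit hw (by fun_prop))))

theorem dec_RB {z w : α → Str} {d k l : α → ℕ} (b : Bool) (hz : PT z) (hw : PT w) (hd : PT d)
    (hs : Small d) (hk : PT k) (hl : PT l) :
    Dec O fun a => RB O (z a) (d a) (k a) (l a) b (w a) := by
  have h : PT fun a => par^[d a] (fld 0 (w a)) := pt_anc (by fun_prop) hd hs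
  exact (Dec.of_ptp (by fun_prop)).and
    ((Dec.of_ptp (ptp_below (by fun_prop) (by fun_prop) (by fun_prop) (by fun_prop))).and
    ((Dec.of_ptp (PTP.eq (pt_lam h) (by fun_prop))).and
      ((Dec.of_ptp (PTP.eq (PT.getD (pt_aa h) hk (PT.const _)) (by fun_prop))).and
      ((Dec.of_ptp (PTP.eq (PT.drop (by fun_prop) (pt_aa h)) (by fun_prop))).and
        (dec_wit hw hl)))))

theorem dec_RT {z w : α → Str} {m d k l : α → ℕ} (hz : PT z) (hw : PT w) (hm : PT m)
    (hm' : Small m) (hd : PT d) (hs : Small d) (hk : PT k) (hl : PT l) :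
    Dec O fun a => RT O (z a) (m a) (d a) (k a) (l a) (w a) :=
  (Dec.forall_mem (p := fun a (j : Str) =>
      ¬Out O j ((aa (z a)).getD (k a) []) (m a) (par (z a))) (by fun_prop)
    (dec_out (by fun_prop) (by fun_prop) (by fun_prop) (by fun_prop) (by fun_prop)).not).and
    ((Dec.of_ptp (by fun_prop)).imp
      ((dec_RB false hz (by fun_prop) hd hs hk hl).and (dec_RB true hz (by fun_prop) hd hs hk hl)))

theorem dec_RR : Dec O fun p : Str × ℕ × Str => RR O p.1 p.2.1 p.2.2 := by
  have h : PT fun p : Str × ℕ × Str => par^[tp p.1 - p.2.1] p.1 :=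
    pt_anc (by fun_prop) (by fun_prop) (by fun_prop)
  exact ((Dec.of_ptp (by fun_prop)).and
    (dec_RT h (by fun_prop)
      (pt_cex (by fun_prop) (PT.add (pt_kk (PT.length (pt_par h))) (pt_lam h))) (by fun_prop)
      (by fun_prop) (by fun_prop) (by fun_prop) (by fun_prop))).or
    ((Dec.of_ptp (by fun_prop)).and
      (dec_RP (by fun_prop) (by fun_prop) (by fun_prop) (by fun_prop) (by fun_prop)))

end Pool.Agent.P.MP_435dae_lc.Opt
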