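import Pool.Agent.P.MP_435dae_lc.Defs
import Pool.Agent.P.MP_158ebf_lc.Main

/-! Planting a hidden witness in a random oracle. -/

namespace Pool.Agent.P.MP_435dae_lc

open MeasureTheory Function Set Pool.Agent.P.MP_158ebf_lc Pool.Agent.Lib.PolyTime
open scoped ENNReal

/-- Oracles. -/
abbrev Ora := Str → Bool

instance coin_prob : IsProbabilityMeasure coin := by
  unfold coin; infer_instance

theorem map_flip (z : Str) : coin.map (fun O => update O z (!O z)) = coin := by
  have h1 : (fun O : Ora => update O z (!O z)) =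
      fun O y => (fun y b => if y = z then !b else b) y (O y) := by
    funext O y
    by_cases h : y = z
    · subst h; simp
    · simp [h]
  rw [h1, coin]
  refine (Measure.infinitePi_map_pi (fun _ : Str => (PMF.uniformOfFintype Bool).toMeasure)
    (f := fun y b => if y = z then !b else b) fun _ => Measurable.of_discrete).trans ?_
  congr 1
  funext y
  refine Measure.ext_of_singleton fun b => ?_
  rw [Measure.map_apply Measurable.of_discrete (MeasurableSet.singleton _)]
  by_cases h : y = z
  · have : (fun c : Bool => if y = z then !c else c) ⁻¹' {b} = {!b} := by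
      ext c; cases b <;> cases c <;> simp [h]
    rw [this]
    simp
  · simp [h, preimage]

theorem meas_flip (z : Str) : Measurable fun O : Ora => update O z (!O z) :=
  (measurable_update' (a := z)).comp (measurable_id.prodMk
    ((Measurable.of_discrete (f := fun b : Bool => !b)).comp (measurable_pi_apply z)))

theorem meas_bit (z : Str) (b : Bool) : MeasurableSet {O : Ora | O z = b} :=
  (measurable_pi_apply z : Measurable fun O : Ora => O z) (MeasurableSet.singleton b)

theorem half {A : Set Ora} (hA : MeasurableSet A) (z : Str) (b : Bool) :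
    coin (A ∩ {O | O z = b}) = 2⁻¹ * coin ((update · z b) ⁻¹' A) := by
  have hB : MeasurableSet ((update · z b) ⁻¹' A) := measurable_update_left hA
  have h1 : A ∩ {O | O z = b} = (update · z b) ⁻¹' A ∩ {O | O z = b} := by
    ext O
    simp only [mem_inter_iff, mem_ofPred_eq, mem_preimage]
    refine and_congr_left fun h => ?_
    rw [← h, update_eq_self]
  have h2 : coin ((update · z b) ⁻¹' A \ {O | O z = b}) =
      coin ((update · z b) ⁻¹' A ∩ {O | O z = b}) := by
    conv_rhs => rw [← map_flip z, Measure.map_apply (meas_flip z) (hB.inter (meas_bit z b))]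
    congr 1
    ext O
    cases b <;> simp
  rw [← measure_inter_add_sdiff ((update · z b) ⁻¹' A) (meas_bit z b), h2, ← h1, ← two_mul,
    ← mul_assoc, ENNReal.inv_mul_cancel (by norm_num) (by norm_num), one_mul]

/-- All strings of the list belong to the oracle. -/
def W (l : List Str) : Set Ora := {O | ∀ z ∈ l, O z = true}

/-- The strings of the list are added to the oracle. -/
def plant (l : List Str) (O : Ora) : Ora := fun z => O z || decide (z ∈ l)

theorem meas_W (l : List Str) : MeasurableSet (W l) := by
  have : W l = ⋂ z ∈ l, {O | O z = true} := by ext O; simp [W]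
  rw [this]
  exact MeasurableSet.iInter fun z => MeasurableSet.iInter fun _ => meas_bit z true

theorem meas_plant (l : List Str) : Measurable (plant l) :=
  measurable_pi_lambda _ fun z =>
    (Measurable.of_discrete (f := fun b : Bool => b || decide (z ∈ l))).comp (measurable_pi_apply z)

theorem coin_inter_W {l : List Str} (hl : l.Nodup) {A : Set Ora} (hA : MeasurableSet A) :
    coin (A ∩ W l) = 2⁻¹ ^ l.length * coin (plant l ⁻¹' A) := by
  induction l generalizing A with
  | nil =>
    have : plant [] = id := by funext O z; simp [plant]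
    simp [W, this]
  | cons z l ih =>
    rw [List.nodup_cons] at hl
    have h1 : A ∩ W (z :: l) = (A ∩ W l) ∩ {O | O z = true} := by
      ext O; simp only [W, mem_inter_iff, mem_ofPred_eq, List.forall_mem_cons]; tauto
    have h2 : (update · z true) ⁻¹' (A ∩ W l) = (update · z true) ⁻¹' A ∩ W l := by
      ext O
      simp only [W, mem_inter_iff, mem_ofPred_eq, mem_preimage]
      refine and_congr_right fun _ => forall₂_congr fun y hy => ?_
      rw [update_of_ne fun h : y = z => hl.1 (h ▸ hy)]
    have h3 : plant l ⁻¹' ((update · z true) ⁻¹' A) = plant (z :: l) ⁻¹' A := by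
      ext O
      have : update (plant l O) z true = plant (z :: l) O := by
        funext y
        by_cases h : y = z
        · subst h; simp [plant]
        · simp [plant, h]
      simp only [mem_preimage, this]
    rw [h1, half (hA.inter (meas_W l)), h2, ih hl.2 (measurable_update_left hA), h3,
      List.length_cons, pow_succ]
    ring

variable {ι : Type} {Y : Finset ι} {bl : ι → List Str} {m : ℕ}

theorem coin_wit_le (h1 : ∀ y ∈ Y, (bl y).Nodup ∧ (bl y).length = m) :
    coin (⋃ y ∈ Y, W (bl y)) ≤ Y.card * 2⁻¹ ^ m := by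
  refine (measure_biUnion_finset_le _ _).trans (le_of_eq ?_)
  rw [Finset.sum_congr rfl fun y hy => show coin (W (bl y)) = 2⁻¹ ^ m by
    rw [← univ_inter (W _), coin_inter_W (h1 y hy).1 MeasurableSet.univ, (h1 y hy).2]; simp]
  simp

open Classical in
/-- An event that survives planting at most places meets the event that a witness exists. -/
theorem planting (h1 : ∀ y ∈ Y, (bl y).Nodup ∧ (bl y).length = m)
    (h2 : ∀ y ∈ Y, ∀ y' ∈ Y, y ≠ y' → ∀ z ∈ bl y, z ∉ bl y') {E : Set Ora} (hE : MeasurableSet E)
    {c : ℕ} (h3 : ∀ O ∈ E, c ≤ (Y.filter fun y => plant (bl y) O ∈ E).card) :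
    c * 2⁻¹ ^ m * coin (E \ ⋃ y ∈ Y, W (bl y)) ≤ coin (E ∩ ⋃ y ∈ Y, W (bl y)) := by
  have mU : ∀ Z : Finset ι, MeasurableSet (⋃ y ∈ Z, W (bl y)) := fun Z =>
    Finset.measurableSet_biUnion _ fun y _ => meas_W _
  let F : ι → Set Ora := fun y => (E \ ⋃ y' ∈ Y.erase y, W (bl y')) ∩ W (bl y)
  let G : ι → Set Ora := fun y => (E \ ⋃ y ∈ Y, W (bl y)) ∩ plant (bl y) ⁻¹' E
  have mG : ∀ y, MeasurableSet (G y) := fun y => (hE.diff (mU _)).inter (meas_plant _ hE)
  have a1 : ∑ y ∈ Y, coin (F y) ≤ coin (E ∩ ⋃ y ∈ Y, W (bl y)) := by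
    rw [← measure_biUnion_finset ?_ fun y _ => (hE.diff (mU _)).inter (meas_W _)]
    · refine measure_mono (iUnion₂_subset fun y hy O hO => ⟨hO.1.1, mem_biUnion hy hO.2⟩)
    · intro y hy y' hy' h
      refine Set.disjoint_left.2 fun O hO hO' => hO.1.2 ?_
      exact mem_biUnion (Finset.mem_erase.2 ⟨h.symm, hy'⟩) hO'.2
  have a2 : ∀ y ∈ Y, 2⁻¹ ^ m * coin (G y) ≤ coin (F y) := by
    intro y hy
    rw [coin_inter_W (h1 y hy).1 (hE.diff (mU _)), (h1 y hy).2]
    refine mul_le_mul_right (measure_mono fun O hO => ?_) _
    refine (mem_sdiff _).2 ⟨hO.2, fun h => hO.1.2 ?_⟩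
    obtain ⟨y', hy', h⟩ := mem_iUnion₂.1 h
    rw [Finset.mem_erase] at hy'
    refine mem_biUnion hy'.2 fun z hz => ?_
    simpa [plant, h2 y' hy'.2 y hy hy'.1 z hz] using h z hz
  have a3 : c * coin (E \ ⋃ y ∈ Y, W (bl y)) ≤ ∑ y ∈ Y, coin (G y) := by
    rw [← lintegral_indicator_const (hE.diff (mU _)),
      Finset.sum_congr rfl fun y _ => (lintegral_indicator_one (mG y)).symm,
      ← lintegral_finsetSum _ fun y _ => measurable_one.indicator (mG y)]
    refine lintegral_mono fun O => ?_
    by_cases hO : O ∈ E \ ⋃ y ∈ Y, W (bl y)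
    · rw [indicator_of_mem hO]
      refine le_trans (Nat.cast_le.2 (h3 O hO.1)) (le_of_eq ?_)
      rw [Finset.card_filter, Nat.cast_sum]
      refine Finset.sum_congr rfl fun y _ => ?_
      by_cases h : plant (bl y) O ∈ E
      · rw [if_pos h, indicator_of_mem (show O ∈ G y from ⟨hO, h⟩)]; simp
      · rw [if_neg h, indicator_of_notMem fun h' : O ∈ G y => h h'.2]; simp
    · rw [indicator_of_notMem hO]
      exact zero_le
  calc c * 2⁻¹ ^ m * coin (E \ ⋃ y ∈ Y, W (bl y))
      = 2⁻¹ ^ m * (c * coin (E \ ⋃ y ∈ Y, W (bl y))) := by ring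
    _ ≤ 2⁻¹ ^ m * ∑ y ∈ Y, coin (G y) := mul_le_mul_right a3 _
    _ ≤ ∑ y ∈ Y, coin (F y) := by rw [Finset.mul_sum]; exact Finset.sum_le_sum a2
    _ ≤ _ := a1

/-! ### Events determined by short strings -/

/-- The index of a string. -/
def ix (z : Str) : ℕ := ofBits (z.reverse ++ [true]) - 1

theorem stdString_ix (z : Str) : stdString (ix z) = z := by
  have h := bits_ofBits_concat z.reverse
  unfold ix
  rcases e : ofBits (z.reverse ++ [true]) with _ | n
  · rw [e] at h; simp at h
  · rw [e] at h; simp [stdString, h]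

theorem ix_lt (z : Str) : ix z < 2 ^ (z.length + 1) := by
  have := ofBits_lt (z.reverse ++ [true])
  simp only [List.length_append, List.length_reverse, List.length_singleton] at this
  unfold ix
  omega

/-- The oracle given by a finite table. -/
def tab (a : Str) : Ora := fun z => a.getD (ix z) false

theorem tab_chi (O : Ora) {K : ℕ} {z : Str} (h : ix z < K) : tab (chi O K) z = O z := by
  simp [tab, chi, List.getD_eq_getElem?_getD, h, stdString_ix]

theorem coin_chi (a : Str) : MeasurableSet {O : Ora | chi O a.length = a} ∧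
    coin {O | chi O a.length = a} = 2⁻¹ ^ a.length := by
  induction a using List.reverseRecOn with
  | nil => simp [chi]
  | append_singleton a b ih =>
    have h1 : {O : Ora | chi O (a ++ [b]).length = a ++ [b]} =
        {O | chi O a.length = a} ∩ {O | O (stdString a.length) = b} := by
      ext O
      simp only [List.length_append, List.length_singleton, chi_succ, mem_ofPred_eq, mem_inter_iff]
      exact ⟨fun h => by simpa using List.append_inj' h rfl, fun h => by rw [h.1, h.2]⟩
    have h2 : (update · (stdString a.length) b) ⁻¹' {O : Ora | chi O a.length = a} =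
        {O | chi O a.length = a} := by
      ext O
      have : chi (update O (stdString a.length) b) a.length = chi O a.length :=
        List.map_congr_left fun i hi => update_of_ne
          (fun h => by have := stdString_inj h; rw [List.mem_range] at hi; omega) _ _
      simp only [mem_preimage, mem_ofPred_eq, this]
    rw [h1]
    refine ⟨ih.1.inter (meas_bit _ _), ?_⟩
    rw [half ih.1, h2, ih.2, List.length_append, List.length_singleton, pow_succ, mul_comm]

/-- The test depends only on strings of length at most `l`. -/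
def Loc (l : ℕ) (t : Ora → Bool) : Prop :=
  ∀ O O', (∀ z : Str, z.length ≤ l → O' z = O z) → t O' = t O

theorem Loc.coin {l K : ℕ} {t : Ora → Bool} (h : Loc l t) (hK : 2 ^ (l + 1) ≤ K) :
    MeasurableSet {O | t O = true} ∧
      coin {O | t O = true} = ((allStr K).countP fun a => t (tab a) : ℕ) * 2⁻¹ ^ K := by
  have h1 : {O | t O = true} = ⋃ a ∈ ((allStr K).filter fun a => t (tab a)).toFinset,
      {O : Ora | chi O a.length = a} := by
    ext O
    have h2 : t (tab (chi O K)) = t O := h _ _ fun z hz => tab_chi O ((ix_lt z).trans_le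
      ((Nat.pow_le_pow_right (by norm_num) (by omega)).trans hK))
    simp only [mem_ofPred_eq, mem_iUnion, List.mem_toFinset, List.mem_filter, mem_allStr]
    constructor
    · exact fun h => ⟨chi O K, ⟨length_chi _ _, h2.trans h⟩, by rw [length_chi]⟩
    · rintro ⟨a, ⟨rfl, h3⟩, h4⟩
      rwa [← h2, h4]
  rw [h1]
  refine ⟨Finset.measurableSet_biUnion _ fun a _ => (coin_chi a).1, ?_⟩
  rw [measure_biUnion_finset ?_ fun a _ => (coin_chi a).1,
    Finset.sum_congr rfl fun a ha => show _ = (2⁻¹ : ℝ≥0∞) ^ K by
      rw [(coin_chi a).2, mem_allStr.1 (List.mem_filter.1 (List.mem_toFinset.1 ha)).1],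
    Finset.sum_const, List.toFinset_card_of_nodup ((nodup_allStr K).filter _),
    List.countP_eq_length_filter, nsmul_eq_mul]
  intro a ha b hb hab
  refine Set.disjoint_left.2 fun O h1 h2 => hab ?_
  have h3 := mem_allStr.1 (List.mem_filter.1 (List.mem_toFinset.1 ha)).1
  have h4 := mem_allStr.1 (List.mem_filter.1 (List.mem_toFinset.1 hb)).1
  rw [mem_ofPred_eq] at h1 h2
  rw [← h1, ← h2, h3, h4]

theorem Loc.meas {l : ℕ} {t : Ora → Bool} (h : Loc l t) : MeasurableSet {O | t O = true} :=
  (h.coin le_rfl).1

end Pool.Agent.P.MP_435dae_lc
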