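import Pool.Agent.P.MP_435dae_lc.Mach

/-! The events at one level and the sequence of stages. -/

namespace Pool.Agent.P.MP_435dae_lc

open MeasureTheory Function N487b59b3 N68a2faeb Pool.Agent.P.MP_158ebf_lc
  Pool.Agent.P.MP_158ebf_lc.POpt Pool.Agent.Lib.PolyTime
open scoped ENNReal

variable (M M' : Mc)

/-- There is a short proof of the statement that no block lies in the oracle. -/
noncomputable def prf (O : Ora) (u r : ℕ) : Bool :=
  (advs (2 ^ u ^ 2)).any fun v => run M O v == run M' O (inst u r)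

/-- No false statement of a lower level has a short proof. -/
noncomputable def snd (O : Ora) (n u : ℕ) : Bool :=
  (List.range u).all fun u' => (List.range (u' + 1)).all fun r' =>
    !(decide (n ≤ u') && decide (tw u' ≤ u) && prf M M' O u' r' && wit O u' r')

/-- The event whose probability decides the stage. -/
noncomputable def ev (O : Ora) (n u r : ℕ) : Bool :=
  prf M M' O u r && snd M M' O n u && !wit O u r

/-- The event has probability at least `2 ^ (-k)`. -/
noncomputable def keep (k n u r : ℕ) : Bool :=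
  decide (2 ^ tw (tw u) ≤ 2 ^ k * (allStr (tw (tw u))).countP fun a => ev M M' (tab a) n u r)

/-- From level `n` on the machines ask few and short queries. -/
def Short (n : ℕ) : Prop :=
  2 ≤ n ∧ ∀ u ≥ n, ∀ O r (v : Str), v.length ≤ 2 ^ u ^ 2 →
    (qrs M O v ++ qrs M' O (inst u r)).length ≤ tw u ∧
      ∀ z ∈ qrs M O v ++ qrs M' O (inst u r), z.length ≤ tw u

variable {M M'}

theorem exists_short (hM : Good M) (hM' : Good M') : ∃ n, Short M M' n := by
  obtain ⟨p, hp⟩ := qrs_bound hM
  obtain ⟨p', hp'⟩ := qrs_bound hM'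
  obtain ⟨n, hn⟩ := eval_le_tw (p + p'.comp (2 * Polynomial.X))
  refine ⟨n + 2, by omega, fun u hu O r v hv => ?_⟩
  have h1 := hn u (by omega)
  have h2 := eval_mono p hv
  have h3 := eval_mono p' (show (inst u r).length ≤ 2 * 2 ^ u ^ 2 by
    have := le_clock u
    simp only [inst, List.length_append, List.length_replicate]
    omega)
  simp only [Polynomial.eval_add, Polynomial.eval_comp, Polynomial.eval_mul,
    Polynomial.eval_ofNat, Polynomial.eval_X] at h1
  have h4 := hp O v
  have h5 := hp' O (inst u r)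
  refine ⟨by rw [List.length_append]; omega, fun z hz => ?_⟩
  rcases List.mem_append.1 hz with hz | hz
  · have := h4.2 z hz; omega
  · have := h5.2 z hz; omega

variable {n u r k : ℕ}

theorem loc_prf (h : Short M M' n) (hu : n ≤ u) (r : ℕ) : Loc (tw u) fun O => prf M M' O u r := by
  intro O O' hO
  refine any_congr_mem fun v hv => ?_
  have := (h.2 u hu O r v (mem_advs.1 hv)).2
  rw [run_agree fun z hz => hO z (this z (List.mem_append_left _ hz)),
    run_agree fun z hz => hO z (this z (List.mem_append_right _ hz))]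

theorem loc_snd (h : Short M M' n) (u : ℕ) : Loc u fun O => snd M M' O n u := by
  intro O O' hO
  refine all_congr_mem fun u' _ => all_congr_mem fun r' _ => ?_
  by_cases h1 : n ≤ u' ∧ tw u' ≤ u
  · have a1 := loc_prf h h1.1 r' O O' fun z hz => hO z (hz.trans h1.2)
    have a2 := loc_wit (h.1.trans h1.1) r' O O' fun z hz => hO z (hz.trans h1.2)
    dsimp only at a1 a2
    rw [a1, a2]
  · rw [← Bool.decide_and, decide_eq_false h1]
    rfl

theorem loc_both (h : Short M M' n) (hu : n ≤ u) (r : ℕ) :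
    Loc (tw u) fun O => prf M M' O u r && snd M M' O n u := fun O O' hO =>
  congrArg₂ _ (loc_prf h hu r O O' hO)
    (loc_snd h u O O' fun z hz => hO z (hz.trans (lt_tw u).le))

theorem loc_ev (h : Short M M' n) (hu : n ≤ u) (r : ℕ) :
    Loc (tw u) fun O => ev M M' O n u r := fun O O' hO =>
  congrArg₂ _ (loc_both h hu r O O' hO) (congrArg _ (loc_wit (h.1.trans hu) r O O' hO))

theorem keep_iff (h : Short M M' n) (hu : n ≤ u) :
    keep M M' k n u r = true ↔ 2⁻¹ ^ k ≤ coin {O | ev M M' O n u r = true} := by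
  have h1 : 2 ^ (tw u + 1) ≤ tw (tw u) := by
    have a1 := lt_tw u
    have a2 := h.1
    refine Nat.pow_le_pow_right (by norm_num) ?_
    have a3 : 2 ^ 2 ≤ tw u ^ 2 := Nat.pow_le_pow_left (by omega) 2
    rw [pow_succ (tw u) 2]
    nlinarith
  have e : ∀ j : ℕ, (2 : ℝ≥0∞) ^ j ≠ 0 ∧ (2 : ℝ≥0∞) ^ j ≠ ⊤ := fun j =>
    ⟨by simp, ENNReal.pow_ne_top (by norm_num)⟩
  rw [((loc_ev h hu r).coin h1).2, keep, decide_eq_true_eq, ← ENNReal.inv_pow, ← ENNReal.inv_pow,
    ← div_eq_mul_inv, ENNReal.le_div_iff_mul_le (Or.inl (e _).1) (Or.inl (e _).2),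
    ENNReal.inv_mul_le_iff (e _).1 (e _).2]
  norm_cast

theorem coin_wit (hr : r ≤ u) : coin {O | wit O u r = true} ≤ 2⁻¹ ^ r := by
  rw [wit_eq]
  refine (coin_wit_le (m := u ^ 3 + 1 + r) fun y _ =>
    ⟨nodup_bl _ _ _, by simp [bl, hr]⟩).trans (le_of_eq ?_)
  rw [card_cand, pow_add (2⁻¹ : ℝ≥0∞), ← mul_assoc, Nat.cast_pow, Nat.cast_ofNat, ← mul_pow,
    ENNReal.mul_inv_cancel (by norm_num) (by norm_num), one_pow, one_mul]

theorem coin_unsound (h : Short M M' n) (hu : n ≤ u) (hr : r ≤ u) :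
    2⁻¹ ^ (r + 1) * coin {O | ev M M' O n u r = true} ≤
      coin {O | (prf M M' O u r && snd M M' O n u && wit O u r) = true} := by
  classical
  have h1 := planting (Y := (allStr (u ^ 3 + 1)).toFinset) (bl := bl u r) (m := u ^ 3 + 1 + r)
    (c := tw u) (fun y _ => ⟨nodup_bl _ _ _, by simp [bl, hr]⟩)
    (fun y hy y' hy' hne z hz hz' => hne <|
      (mem_bl (mem_allStr.1 (List.mem_toFinset.1 hy)) hz).1.symm.trans
        (mem_bl (mem_allStr.1 (List.mem_toFinset.1 hy')) hz').1)
    (loc_both h hu r).meas fun O hO => ?_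
  · rw [← wit_eq] at h1
    have e1 : {O | ev M M' O n u r = true} = {O | (prf M M' O u r && snd M M' O n u) = true} \
        {O | wit O u r = true} := by ext O; simp [ev]
    have e2 : {O | (prf M M' O u r && snd M M' O n u && wit O u r) = true} =
        {O | (prf M M' O u r && snd M M' O n u) = true} ∩ {O | wit O u r = true} := by
      ext O; simp
    rw [e1, e2]
    refine le_trans (le_of_eq ?_) h1
    rw [tw, show u ^ 3 + 1 + r = u ^ 3 + (r + 1) by ring, pow_add (2⁻¹ : ℝ≥0∞) (u ^ 3),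
      ← mul_assoc, Nat.cast_pow, Nat.cast_ofNat, ← mul_pow,
      ENNReal.mul_inv_cancel (by norm_num) (by norm_num), one_pow, one_mul]
  · rw [Set.mem_ofPred_eq, Bool.and_eq_true] at hO
    obtain ⟨v, hv, hv'⟩ := List.any_eq_true.1 hO.1
    have a1 := (h.2 u hu O r v (mem_advs.1 hv)).1
    set Q := qrs M O v ++ qrs M' O (inst u r) with hQ
    have a2 : (Q.map fun z => z.take (u ^ 3 + 1)).toFinset.card ≤ tw u :=
      (List.toFinset_card_le _).trans (by rwa [List.length_map])
    have a3 := Finset.le_card_sdiff (Q.map fun z => z.take (u ^ 3 + 1)).toFinset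
      (allStr (u ^ 3 + 1)).toFinset
    rw [card_cand, pow_succ, ← tw] at a3
    refine le_trans (by omega) (a3.trans (Finset.card_le_card fun y hy => ?_))
    rw [Finset.mem_sdiff] at hy
    have a4 := mem_allStr.1 (List.mem_toFinset.1 hy.1)
    have a5 : ∀ z ∈ Q, plant (bl u r y) O z = O z := fun z hz => by
      rw [plant, decide_eq_false fun h' => hy.2 (List.mem_toFinset.2
        (List.mem_map.2 ⟨z, hz, (mem_bl a4 h').1⟩)), Bool.or_false]
    refine (@Finset.mem_filter _ _ (_) _ _).2 ⟨hy.1, Bool.and_eq_true_iff.2 ⟨List.any_eq_true.2 ⟨v, hv, ?_⟩, ?_⟩⟩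
    · rwa [run_agree fun z hz => a5 z (List.mem_append_left _ hz),
        run_agree fun z hz => a5 z (List.mem_append_right _ hz)]
    · refine (loc_snd h u O _ fun z hz => ?_).trans hO.2
      rw [plant, decide_eq_false fun h' => (mem_bl a4 h').2.1.not_ge hz, Bool.or_false]

/-! ### Polynomial time -/

section

variable {α : Type} [N487b59b3 α]

theorem two_pow_le_tw (u : ℕ) : 2 ^ u ≤ tw u :=
  Nat.pow_le_pow_right (by norm_num) (Nat.le_self_pow (by norm_num) u)

theorem tw_le_tw {a b : ℕ} (h : a ≤ b) : tw a ≤ tw b :=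
  Nat.pow_le_pow_right (by norm_num) (Nat.pow_le_pow_left h 3)

theorem pt_wit {t : α → Str} {u r : α → ℕ} (ht : PT t) (hu : PT u) (hr : PT r)
    (h : Small fun a => tw (u a)) : PT fun a => wit (tab (t a)) (u a) (r a) := by
  have h1 := small_of_tw h
  have h2 : PT fun a => allStr (u a ^ 3 + 1) := PT.allStr (by fun_prop)
    ((h.mul (Small.const 2)).mono fun a => (pow_succ _ _).le)
  have h3 : PT fun p : α × Str => bl (u p.1) (r p.1) p.2 := by
    refine (show PT fun p : α × Str => (List.range (u p.1 ^ 3 + 1 + min (r p.1) (u p.1))).map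
      fun j => p.2 ++ List.replicate (min j (u p.1 ^ 3 + 1 + u p.1)) true by fun_prop).congr
      fun p => List.map_congr_left fun j hj => ?_
    rw [List.mem_range] at hj
    rw [min_eq_left (by omega)]
  exact PT.any h2 (PT.all h3 (pt_tab (by fun_prop) (by fun_prop)))

theorem pt_prf (hM : Good M) (hM' : Good M') {t : α → Str} {u r : α → ℕ} (ht : PT t) (hu : PT u)
    (hr : PT r) (h : Small fun a => tw (tw (u a))) :
    PT fun a => prf M M' (tab (t a)) (u a) (r a) := by
  have h1 := small_of_tw (small_of_tw h)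
  have h0 : ∀ a, 2 ^ u a ^ 2 ≤ tw (u a) := fun a => by
    rcases Nat.eq_zero_or_pos (u a) with h0 | h0
    · simp [h0, tw]
    · exact Nat.pow_le_pow_right (by norm_num) (Nat.pow_le_pow_right h0 (by norm_num))
  have h2 : Tiny fun a => 2 ^ u a ^ 2 := h.mono fun a =>
    (Nat.pow_le_pow_right (by norm_num) (h0 a)).trans (two_pow_le_tw _)
  have h3 : PT fun a => 2 ^ u a ^ 2 := by fun_prop
  obtain ⟨G, hG⟩ : ∃ G : α → ℕ, G = fun a => 2 ^ u a ^ 2 := ⟨_, rfl⟩
  rw [← hG] at h2 h3
  have h4 := h2.small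
  have h5 : PT fun a => advs (2 ^ u a ^ 2) :=
    (show PT fun a => (List.range (G a + 1)).flatMap fun i => allStr (min i (G a)) by
      fun_prop).congr fun a => by
      simp only [hG]
      exact List.flatMap_congr fun i hi => by rw [min_eq_left (by simpa [Nat.lt_succ_iff] using hi)]
  have h6 := pt_run hM' ht (pt_inst hu hr h1)
  exact PT.any h5 (PT.beq (pt_run hM (by fun_prop) (by fun_prop)) (h6.comp (by fun_prop)))

theorem pt_keep (hM : Good M) (hM' : Good M') (k n : ℕ) {u r : α → ℕ} (hu : PT u) (hr : PT r)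
    (h : Small fun a => tw (tw (tw (u a)))) : PT fun a => keep M M' k n (u a) (r a) := by
  have h1 := small_of_tw h
  have h2 := small_of_tw h1
  have h3 := small_of_tw h2
  have h4 := pt_tw (pt_tw hu h3) h2
  have h5 : Small fun a => 2 ^ tw (tw (u a)) := h.mono fun a => two_pow_le_tw _
  have h6 : PT fun p : α × Str => snd M M' (tab p.2) n (u p.1) := by
    have a1 : PT fun p : ((α × Str) × ℕ) × ℕ => min p.1.2 (u p.1.1.1) := by fun_prop
    have a2 : Small fun p : ((α × Str) × ℕ) × ℕ => tw (tw (min p.1.2 (u p.1.1.1))) :=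
      (h1.comp (g := fun p : ((α × Str) × ℕ) × ℕ => p.1.1.1) (by fun_prop)).mono fun p =>
        tw_le_tw (tw_le_tw (min_le_right _ _))
    have a3 : PT fun p : ((α × Str) × ℕ) × ℕ => !(decide (n ≤ min p.1.2 (u p.1.1.1)) &&
        decide (tw (min p.1.2 (u p.1.1.1)) ≤ u p.1.1.1) &&
        prf M M' (tab p.1.1.2) (min p.1.2 (u p.1.1.1)) p.2 &&
        wit (tab p.1.1.2) (min p.1.2 (u p.1.1.1)) p.2) :=
      PT.not (PT.and (PT.and (PT.and (PT.decide (PTP.le (PT.const n) a1))
        (PT.decide (ptp_tw a1 (by fun_prop))))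
        (pt_prf hM hM' (by fun_prop) a1 (by fun_prop) a2))
        (pt_wit (by fun_prop) a1 (by fun_prop) (small_of_tw a2)))
    obtain ⟨F, hF⟩ : ∃ F : ((α × Str) × ℕ) × ℕ → Bool, F = fun p =>
      !(decide (n ≤ min p.1.2 (u p.1.1.1)) && decide (tw (min p.1.2 (u p.1.1.1)) ≤ u p.1.1.1) &&
        prf M M' (tab p.1.1.2) (min p.1.2 (u p.1.1.1)) p.2 &&
        wit (tab p.1.1.2) (min p.1.2 (u p.1.1.1)) p.2) := ⟨_, rfl⟩
    rw [← hF] at a3
    refine (show PT fun p : α × Str => (List.range (u p.1)).all fun i =>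
      (List.range (min i (u p.1) + 1)).all fun j => F ((p, i), j) by fun_prop).congr
      fun p => all_congr_mem fun u' hu' => ?_
    simp only [hF, min_eq_left (List.mem_range.1 hu').le]
  have h7 : PT fun p : α × Str => ev M M' (tab p.2) n (u p.1) (r p.1) :=
    PT.and (PT.and (pt_prf hM hM' (by fun_prop) (by fun_prop) (by fun_prop)
      (h1.comp (by fun_prop))) h6)
      (PT.not (pt_wit (by fun_prop) (by fun_prop) (by fun_prop) (h2.comp (by fun_prop))))
  exact PT.decide (PTP.le (PT.pow (PT.const 2) h4 h1)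
    (PT.mul (PT.const _) (PT.countP (PT.allStr h4 h5) h7)))

end

/-! ### Stages -/

/-- One stage. -/
def stp (fd : ℕ → ℕ → Bool) (s : ℕ × ℕ) : ℕ × ℕ :=
  (tw (tw (tw s.1)), if fd s.1 s.2 then s.2 else s.2 + 1)

/-- Level and block excess at stage `i`. -/
def sg (fd : ℕ → ℕ → Bool) (n i : ℕ) : ℕ × ℕ := (stp fd)^[i] (n, n)

/-- The stages that can be computed in time polynomial in `N`. -/
def gsg (fd : ℕ → ℕ → Bool) (N n i : ℕ) : ℕ × ℕ :=
  (fun s => if tw (tw (tw s.1)) ≤ N then stp fd s else s)^[i] (n, n)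

variable {fd : ℕ → ℕ → Bool}

theorem sg_succ (i : ℕ) : sg fd n (i + 1) = stp fd (sg fd n i) := iterate_succ_apply' _ _ _

theorem lt_tw3 (u : ℕ) : tw u < tw (tw (tw u)) := (lt_tw _).trans (lt_tw _)

theorem sg_le (i : ℕ) : (sg fd n i).2 ≤ n + i ∧ n + i ≤ (sg fd n i).1 := by
  induction i with
  | zero => simp [sg]
  | succ i ih =>
    have h1 := lt_tw (sg fd n i).1
    have h2 := lt_tw3 (sg fd n i).1
    rw [sg_succ, stp]
    split_ifs <;> dsimp only <;> omega

theorem sg_mono {i j : ℕ} (h : i < j) : tw (tw (tw (sg fd n i).1)) ≤ (sg fd n j).1 := by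
  induction j, h using Nat.le_induction with
  | base => rw [sg_succ]; rfl
  | succ j h ih => rw [sg_succ]; exact ih.trans ((lt_tw _).trans (lt_tw3 _)).le

theorem gsg_eq {N m : ℕ} (h1 : ∀ i < m, tw (tw (tw (sg fd n i).1)) ≤ N)
    (h2 : N < tw (tw (tw (sg fd n m).1))) (i : ℕ) : gsg fd N n i = sg fd n (min i m) := by
  induction i with
  | zero => rfl
  | succ i ih =>
    rw [gsg, iterate_succ_apply', ← gsg, ih]
    rcases lt_or_ge i m with h | h
    · rw [min_eq_left h.le, if_pos (h1 i h), min_eq_left h, sg_succ]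
    · rw [min_eq_right h, if_neg h2.not_ge, min_eq_right (by omega)]

theorem gsg_self (m : ℕ) : gsg fd (sg fd n m).1 n (sg fd n m).1 = sg fd n m := by
  have := sg_le (fd := fd) (n := n) m
  rw [gsg_eq (m := m) (fun i hi => sg_mono hi) ((lt_tw _).trans (lt_tw3 _)),
    min_eq_right (by omega)]

theorem gsg_late {N m : ℕ} (h : (sg fd n m).1 ≤ N) : ∃ j ≥ m, gsg fd N n N = sg fd n j := by
  have h0 : N < tw (tw (tw (sg fd n N).1)) := by
    have h1 := lt_tw (sg fd n N).1
    have h2 := lt_tw3 (sg fd n N).1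
    have h3 := sg_le (fd := fd) (n := n) N
    omega
  have h1 : ∃ j, N < tw (tw (tw (sg fd n j).1)) := ⟨N, h0⟩
  refine ⟨Nat.find h1, not_lt.1 fun h2 => (Nat.find_spec h1).not_ge ((sg_mono h2).trans h), ?_⟩
  rw [gsg_eq (fun i hi => not_lt.1 (Nat.find_min h1 hi)) (Nat.find_spec h1),
    min_eq_right (Nat.find_min' h1 h0)]

theorem gsg_le (N i : ℕ) : (gsg fd N n i).1 ≤ N + n := by
  induction i with
  | zero => simp [gsg]
  | succ i ih =>
    rw [gsg, iterate_succ_apply', ← gsg]
    split_ifs with h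
    · exact h.trans (Nat.le_add_right _ _)
    · exact ih

theorem pt_gsg (hM : Good M) (hM' : Good M') (k n : ℕ) :
    PT fun w : Str => gsg (keep M M' k n) w.length n w.length := by
  have hN : PT fun p : Str × ℕ × ℕ => p.1.length := by fun_prop
  have hN' : Small fun p : Str × ℕ × ℕ => p.1.length := by fun_prop
  have hu : PT fun p : Str × ℕ × ℕ => p.2.1 := by fun_prop
  have a1 := pt_tw (pt_clip hu hN) (small_of_tw (small_clip hN'))
  have a2 := pt_tw (pt_clip a1 hN) (small_of_tw (small_clip hN'))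
  have a3 : PTP fun p : Str × ℕ × ℕ => tw (tw (tw p.2.1)) ≤ p.1.length := by
    refine ((ptp_tw hu hN).and ((ptp_tw a1 hN).and (ptp_tw a2 hN))).congr fun p => ?_
    have b1 := lt_tw (tw p.2.1)
    have b2 := lt_tw (tw (tw p.2.1))
    refine ⟨fun h => ?_, fun ⟨h1, h2, h3⟩ => ?_⟩
    · rw [clip, clip, if_pos (show tw p.2.1 ≤ _ by omega), if_pos (by omega)]
      omega
    · rwa [clip, if_pos h2, clip, if_pos h1] at h3
  obtain ⟨U, hU⟩ : ∃ U : Str × ℕ × ℕ → ℕ,
    U = fun p => if tw (tw (tw p.2.1)) ≤ p.1.length then p.2.1 else 0 := ⟨_, rfl⟩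
  have a4 : PT U := hU ▸ PT.ite a3 hu (PT.const 0)
  have a5 : Small fun p => tw (tw (tw (U p))) :=
    (hN'.add (Small.const (tw (tw (tw 0))))).mono fun p => by
      simp only [hU]
      split_ifs <;> omega
  have a6 := small_of_tw a5
  have a7 := small_of_tw a6
  refine PT.iterate_nat_growth (by fun_prop) (by fun_prop) (PT.const _) ?_
    (fun w => 2 * w.length + 2) (by fun_prop) fun a s => ?_
  · refine (PT.ite (inst := fun _ => inferInstance) a3
      (PT.pair (pt_tw (pt_tw (pt_tw a4 (small_of_tw a7)) a7) a6)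
        (PT.cond (pt_keep hM hM' k n a4 (r := fun p => p.2.2) (by fun_prop) a5)
          (g := fun p => p.2.2 + 1) (f := fun p => p.2.2) (by fun_prop) (by fun_prop)))
      (g := fun p => p.2) (by fun_prop)).congr fun p => ?_
    split_ifs with h
    · simp [stp, hU, h]
    · rfl
  · split_ifs with h
    · have h3 := sz_le_self (tw (tw (tw s.1)))
      have h4 := sz_add_le s.2 1
      have h5 := sz_le_self 1
      rw [stp, sz_pair', sz_pair']
      split_ifs <;> dsimp only <;> omega
    · omega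

end Pool.Agent.P.MP_435dae_lc
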